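import Mathlib

set_option autoImplicit false

namespace Pool.Agent.Hhelper40.Junta

open Real

/-- `t log t` -/
noncomputable def phi (t : ℝ) : ℝ := t * Real.log t

/-- two-point entropy -/
noncomputable def ent2 (a b : ℝ) : ℝ := (phi a + phi b) / 2 - phi ((a + b) / 2)

@[simp] lemma phi_zero : phi 0 = 0 := by simp [phi]
@[simp] lemma phi_one : phi 1 = 0 := by simp [phi]

lemma ent2_comm (a b : ℝ) : ent2 a b = ent2 b a := by
  unfold ent2
  rw [add_comm (phi a), add_comm a b]

@[simp] lemma ent2_self (a : ℝ) : ent2 a a = 0 := by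
  unfold ent2
  rw [show (a + a) / 2 = a by ring]
  ring

/-- `a log (a/s) + a' log (a'/s') ≥ (a + a') log ((a + a')/(s + s'))` -/
lemma logsum (a a' s s' : ℝ) (ha : 0 ≤ a) (ha' : 0 ≤ a') (hs : 0 < s) (hs' : 0 < s') :
    (a + a') * log ((a + a') / (s + s')) ≤ a * log (a / s) + a' * log (a' / s') := by
  rcases eq_or_lt_of_le ha with h | h
  · rcases eq_or_lt_of_le ha' with h' | h'
    · simp [← h, ← h']
    · rw [← h]
      simp only [zero_add, zero_mul]
      apply mul_le_mul_of_nonneg_left _ h'.le
      apply Real.log_le_log (by positivity)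
      gcongr
      linarith
  · rcases eq_or_lt_of_le ha' with h' | h'
    · rw [← h']
      simp only [add_zero, zero_mul]
      apply mul_le_mul_of_nonneg_left _ h.le
      apply Real.log_le_log (by positivity)
      gcongr
      linarith
    · have key : ∀ b r : ℝ, 0 < b → 0 < r → b * log ((a + a') / (s + s')) + b - r * ((a + a') / (s + s'))
          ≤ b * log (b / r) := by
        intro b r hb hr
        have hpos : 0 < ((a + a') / (s + s')) * (r / b) := by positivity
        have h1 := Real.log_le_sub_one_of_pos hpos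
        rw [Real.log_mul (by positivity) (by positivity)] at h1
        have h2 : log (r / b) = - log (b / r) := by
          rw [← Real.log_inv, inv_div]
        rw [h2] at h1
        have h3 : b * (log ((a + a') / (s + s')) + -log (b / r)) ≤
            b * ((a + a') / (s + s') * (r / b) - 1) := mul_le_mul_of_nonneg_left h1 hb.le
        have h4 : b * ((a + a') / (s + s') * (r / b) - 1) = r * ((a + a') / (s + s')) - b := by
          field_simp
        rw [h4] at h3
        linarith
      have e1 := key a s h hs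
      have e2 := key a' s' h' hs'
      have e3 : s * ((a + a') / (s + s')) + s' * ((a + a') / (s + s')) = a + a' := by
        field_simp
      linarith

/-- rewriting the two-point entropy -/
lemma ent2_eq (a b : ℝ) (ha : 0 ≤ a) (hb : 0 ≤ b) (hab : 0 < a + b) :
    ent2 a b = (a * log (a / ((a + b) / 2)) + b * log (b / ((a + b) / 2))) / 2 := by
  unfold ent2 phi
  have hm : 0 < (a + b) / 2 := by positivity
  rcases eq_or_lt_of_le ha with h | h
  · rcases eq_or_lt_of_le hb with h' | h'
    · exfalso; linarith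
    · rw [← h] at hm ⊢
      rw [Real.log_div h'.ne' hm.ne']
      simp only [zero_add, zero_mul]
      ring
  · rcases eq_or_lt_of_le hb with h' | h'
    · rw [← h'] at hm ⊢
      rw [Real.log_div h.ne' hm.ne']
      simp only [add_zero, zero_mul]
      ring
    · rw [Real.log_div h.ne' hm.ne', Real.log_div h'.ne' hm.ne']
      ring

/-- joint (midpoint) convexity of the two-point entropy -/
lemma ent2_convex (a b a' b' : ℝ) (ha : 0 ≤ a) (hb : 0 ≤ b) (ha' : 0 ≤ a') (hb' : 0 ≤ b') :
    ent2 ((a + a') / 2) ((b + b') / 2) ≤ (ent2 a b + ent2 a' b') / 2 := by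
  rcases eq_or_lt_of_le (add_nonneg ha hb) with h | h
  · have h1 : a = 0 := by linarith
    have h2 : b = 0 := by linarith
    subst h1 h2
    rcases eq_or_lt_of_le (add_nonneg ha' hb') with h' | h'
    · have h1 : a' = 0 := by linarith
      have h2 : b' = 0 := by linarith
      subst h1 h2
      simp
    · rw [ent2_eq _ _ (by positivity) (by positivity) (by linarith), ent2_eq a' b' ha' hb' h',
        ent2_self]
      have e : ∀ y : ℝ, ((0 + y) / 2) / (((0 + a') / 2 + (0 + b') / 2) / 2) = y / ((a' + b') / 2) := by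
        intro y
        rw [show (0 + a') / 2 + (0 + b') / 2 = (a' + b') / 2 by ring, zero_add,
          div_div_div_cancel_right₀ (by norm_num : (2 : ℝ) ≠ 0)]
      rw [e a', e b']
      apply le_of_eq
      ring
  · rcases eq_or_lt_of_le (add_nonneg ha' hb') with h' | h'
    · have h1 : a' = 0 := by linarith
      have h2 : b' = 0 := by linarith
      subst h1 h2
      rw [ent2_eq _ _ (by positivity) (by positivity) (by linarith), ent2_eq a b ha hb h,
        ent2_self]
      have e : ∀ y : ℝ, ((y + 0) / 2) / (((a + 0) / 2 + (b + 0) / 2) / 2) = y / ((a + b) / 2) := by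
        intro y
        rw [show (a + 0) / 2 + (b + 0) / 2 = (a + b) / 2 by ring, add_zero,
          div_div_div_cancel_right₀ (by norm_num : (2 : ℝ) ≠ 0)]
      rw [e a, e b]
      apply le_of_eq
      ring
    · rw [ent2_eq _ _ (by positivity) (by positivity) (by linarith), ent2_eq a b ha hb h,
        ent2_eq a' b' ha' hb' h']
      have e : ∀ y : ℝ, (y / 2) / (((a + a') / 2 + (b + b') / 2) / 2) =
          y / ((a + b) / 2 + (a' + b') / 2) := by
        intro y
        rw [show (a + a') / 2 + (b + b') / 2 = (a + b) / 2 + (a' + b') / 2 by ring,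
          div_div_div_cancel_right₀ (by norm_num : (2 : ℝ) ≠ 0)]
      rw [e, e]
      have l1 := logsum a a' ((a + b) / 2) ((a' + b') / 2) ha ha' (by linarith) (by linarith)
      have l2 := logsum b b' ((a + b) / 2) ((a' + b') / 2) hb hb' (by linarith) (by linarith)
      linarith

/-- `ent2 a b ≤ log 2 * (a + b) / 2` -/
lemma ent2_le_log_two (a b : ℝ) (ha : 0 ≤ a) (hb : 0 ≤ b) :
    ent2 a b ≤ log 2 * ((a + b) / 2) := by
  rcases eq_or_lt_of_le (add_nonneg ha hb) with h | h
  · have h1 : a = 0 := by linarith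
    have h2 : b = 0 := by linarith
    subst h1 h2
    simp
  · rw [ent2_eq a b ha hb h]
    have key : ∀ y : ℝ, 0 ≤ y → y ≤ a + b → y * log (y / ((a + b) / 2)) ≤ y * log 2 := by
      intro y hy hya
      rcases eq_or_lt_of_le hy with h0 | h0
      · rw [← h0]; simp
      · apply mul_le_mul_of_nonneg_left _ hy
        apply Real.log_le_log (by positivity)
        rw [div_le_iff₀ (by positivity)]
        linarith
    have k1 := key a ha (by linarith)
    have k2 := key b hb (by linarith)
    linarith

/-- `ent2 (a^2) (b^2) ≤ (a - b)^2` -/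
lemma ent2_sq_le (a b : ℝ) : ent2 (a ^ 2) (b ^ 2) ≤ (a - b) ^ 2 := by
  rcases eq_or_lt_of_le (add_nonneg (sq_nonneg a) (sq_nonneg b)) with h | h
  · have h1 : a = 0 := by nlinarith [sq_nonneg a, sq_nonneg b]
    have h2 : b = 0 := by nlinarith [sq_nonneg a, sq_nonneg b]
    subst h1 h2
    simp
  · rw [ent2_eq _ _ (sq_nonneg a) (sq_nonneg b) h]
    have hm : 0 < (a ^ 2 + b ^ 2) / 2 := by positivity
    have key : ∀ y : ℝ, 0 ≤ y → y * log (y / ((a ^ 2 + b ^ 2) / 2)) ≤
        y * (y / ((a ^ 2 + b ^ 2) / 2) - 1) := by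
      intro y hy
      rcases eq_or_lt_of_le hy with h0 | h0
      · rw [← h0]; simp
      · apply mul_le_mul_of_nonneg_left _ hy
        apply Real.log_le_sub_one_of_pos
        positivity
    have k1 := key (a ^ 2) (sq_nonneg a)
    have k2 := key (b ^ 2) (sq_nonneg b)
    have e : (a ^ 2 * (a ^ 2 / ((a ^ 2 + b ^ 2) / 2) - 1) +
        b ^ 2 * (b ^ 2 / ((a ^ 2 + b ^ 2) / 2) - 1)) / 2 =
        (a ^ 2 - b ^ 2) ^ 2 / (2 * (a ^ 2 + b ^ 2)) := by
      field_simp
      ring
    calc _ ≤ (a ^ 2 * (a ^ 2 / ((a ^ 2 + b ^ 2) / 2) - 1) +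
        b ^ 2 * (b ^ 2 / ((a ^ 2 + b ^ 2) / 2) - 1)) / 2 := by linarith
      _ = _ := e
      _ ≤ (a - b) ^ 2 := by
        rw [div_le_iff₀ (by positivity)]
        nlinarith [mul_nonneg (sq_nonneg (a - b)) (sq_nonneg (a - b))]

/-- the inequality `(1+b) log (1+b) + (1-b) log (1-b) ≤ 2 log 2 * b^2` on `[0,1]` -/
lemma bin_ineq (b : ℝ) (h0 : 0 ≤ b) (h1 : b ≤ 1) :
    (1 + b) * log (1 + b) + (1 - b) * log (1 - b) ≤ 2 * log 2 * b ^ 2 := by
  have hl : 0.6931471803 < log 2 := Real.log_two_gt_d9
  have hl' : log 2 < 0.6931471808 := Real.log_two_lt_d9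
  rcases le_total b (1 / 2) with hb | hb
  · -- small `b`
    have hA : (1 + b) * log (1 + b) ≤ b + b ^ 2 / 2 := by
      have h2 : log (1 + b) ≤ Real.sinh (log (1 + b)) := by
        rw [Real.self_le_sinh_iff]
        exact Real.log_nonneg (by linarith)
      rw [Real.sinh_log (by linarith)] at h2
      have h3 : (1 + b) * log (1 + b) ≤ (1 + b) * ((1 + b - (1 + b)⁻¹) / 2) :=
        mul_le_mul_of_nonneg_left h2 (by linarith)
      have h4 : (1 + b) * ((1 + b - (1 + b)⁻¹) / 2) = b + b ^ 2 / 2 := by
        have : (1 + b) ≠ 0 := by linarith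
        field_simp
        ring
      linarith
    have hB : (1 - b) * log (1 - b) ≤ - ((1 - b) * (2 * b / (2 - b))) := by
      have hb1 : 0 < 1 - b := by linarith
      have h2 := Real.le_log_one_add_of_nonneg (x := b / (1 - b)) (by positivity)
      have h3 : 1 + b / (1 - b) = (1 - b)⁻¹ := by
        field_simp
        ring
      rw [h3, Real.log_inv] at h2
      have h4 : 2 * (b / (1 - b)) / (b / (1 - b) + 2) = 2 * b / (2 - b) := by
        have : (2 - b) ≠ 0 := by linarith
        field_simp
        ring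
      rw [h4] at h2
      have := mul_le_mul_of_nonneg_left h2 hb1.le
      linarith
    have hC : b + b ^ 2 / 2 - (1 - b) * (2 * b / (2 - b)) = b ^ 2 * (1 / 2 + 1 / (2 - b)) := by
      have : (2 - b) ≠ 0 := by linarith
      field_simp
      ring
    have hD : 1 / (2 - b) ≤ 2 / 3 := by
      rw [div_le_div_iff₀ (by linarith) (by norm_num)]
      linarith
    have hE : b ^ 2 * (1 / 2 + 1 / (2 - b)) ≤ b ^ 2 * (2 * log 2) := by
      apply mul_le_mul_of_nonneg_left _ (sq_nonneg b)
      linarith
    linarith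
  · -- large `b`
    set t := 1 - b with ht
    have hbt : b = 1 - t := by rw [ht]; ring
    have ht0 : 0 ≤ t := by linarith
    have ht1 : t ≤ 1 / 2 := by linarith
    have hA : log (1 + b) ≤ log 2 - t / 2 := by
      have h2 : 1 + b = 2 * (1 - t / 2) := by rw [hbt]; ring
      rw [h2, Real.log_mul (by norm_num) (by linarith)]
      have h3 := Real.log_le_sub_one_of_pos (show 0 < 1 - t / 2 by linarith)
      linarith
    have hA' : (1 + b) * log (1 + b) ≤ (2 - t) * (log 2 - t / 2) := by
      have h2 : 1 + b = 2 - t := by rw [hbt]; ring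
      rw [h2]
      rw [h2] at hA
      exact mul_le_mul_of_nonneg_left hA (by linarith)
    have hB : t * log t ≤ t * (- log 2 + (2 * t - 1)) := by
      rcases eq_or_lt_of_le ht0 with h | h
      · rw [← h]; simp
      · apply mul_le_mul_of_nonneg_left _ ht0
        have h3 := Real.log_le_sub_one_of_pos (show 0 < 2 * t by linarith)
        rw [Real.log_mul (by norm_num) h.ne'] at h3
        linarith
    rw [hbt]
    rw [hbt] at hA'
    have hC : (2 - t) * (log 2 - t / 2) + t * (- log 2 + (2 * t - 1)) ≤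
        2 * log 2 * (1 - t) ^ 2 := by
      have : 0 ≤ t * (2 - 2 * log 2 - t * (5 / 2 - 2 * log 2)) := by
        apply mul_nonneg ht0
        nlinarith
      nlinarith
    have hD : (1 : ℝ) - (1 - t) = t := by ring
    linarith

/-- `ent2 a b ≤ log 2 * (a - b)^2 / (2 (a + b))` -/
lemma ent2_le_chi (a b : ℝ) (ha : 0 ≤ a) (hb : 0 ≤ b) :
    ent2 a b ≤ log 2 * ((a - b) ^ 2 / (2 * (a + b))) := by
  wlog hab : b ≤ a generalizing a b
  · have := this b a hb ha (le_of_not_ge hab)
    rw [ent2_comm, show (a - b) ^ 2 = (b - a) ^ 2 by ring, add_comm a b]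
    exact this
  rcases eq_or_lt_of_le (add_nonneg ha hb) with h | h
  · have h1 : a = 0 := by linarith
    have h2 : b = 0 := by linarith
    subst h1 h2
    simp
  · rw [ent2_eq a b ha hb h]
    have hm : 0 < (a + b) / 2 := by positivity
    set β := (a - b) / (a + b) with hβ
    have hβ0 : 0 ≤ β := div_nonneg (by linarith) h.le
    have hβ1 : β ≤ 1 := by rw [hβ, div_le_one h]; linarith
    have e1 : a / ((a + b) / 2) = 1 + β := by rw [hβ]; field_simp; ring
    have e2 : b / ((a + b) / 2) = 1 - β := by rw [hβ]; field_simp; ring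
    have e3 : a = (a + b) / 2 * (1 + β) := by rw [← e1]; field_simp
    have e4 : b = (a + b) / 2 * (1 - β) := by rw [← e2]; field_simp
    have key := bin_ineq β hβ0 hβ1
    have e5 : (a - b) ^ 2 / (2 * (a + b)) = (a + b) / 2 * β ^ 2 := by
      rw [hβ]; field_simp
    rw [e1, e2, e5]
    have e6 : (a * log (1 + β) + b * log (1 - β)) / 2 =
        (a + b) / 2 * (((1 + β) * log (1 + β) + (1 - β) * log (1 - β)) / 2) := by
      nth_rewrite 1 [e3]
      nth_rewrite 2 [e4]
      ring
    rw [e6]
    calc (a + b) / 2 * (((1 + β) * log (1 + β) + (1 - β) * log (1 - β)) / 2)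
        ≤ (a + b) / 2 * ((2 * log 2 * β ^ 2) / 2) := by
          apply mul_le_mul_of_nonneg_left _ hm.le
          linarith
      _ = _ := by ring

/-- `ent2 a b ≤ log 2 * |a - b| / 2` -/
lemma ent2_le_abs (a b : ℝ) (ha : 0 ≤ a) (hb : 0 ≤ b) :
    ent2 a b ≤ log 2 * (|a - b| / 2) := by
  rcases eq_or_lt_of_le (add_nonneg ha hb) with h | h
  · have h1 : a = 0 := by linarith
    have h2 : b = 0 := by linarith
    subst h1 h2
    simp
  · refine (ent2_le_chi a b ha hb).trans ?_
    apply mul_le_mul_of_nonneg_left _ (Real.log_nonneg (by norm_num))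
    rw [div_le_div_iff₀ (by positivity) (by norm_num), ← sq_abs]
    have : |a - b| ≤ a + b := by
      rw [abs_le]
      constructor <;> linarith
    nlinarith [abs_nonneg (a - b)]

/-- the potential inequality for `t ↦ - t^2 log t` -/
lemma psi_ineq (p q : ℝ) (hp : 0 ≤ p) (hq : 0 ≤ q) :
    ((p - q) / 2) ^ 2 * (- log ((p + q) / 2)) ≤
      (- (p ^ 2 * log p) - q ^ 2 * log q) / 2 + ((p + q) / 2) ^ 2 * log ((p + q) / 2) +
        2 * ((p - q) / 2) ^ 2 := by
  rcases eq_or_lt_of_le (add_nonneg hp hq) with h | h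
  · have h1 : p = 0 := by linarith
    have h2 : q = 0 := by linarith
    subst h1 h2
    simp
  · set m := (p + q) / 2 with hm
    have hm0 : 0 < m := by positivity
    have key : ∀ y : ℝ, 0 ≤ y → y ^ 2 * log y ≤ y ^ 2 * log m + y ^ 2 * (y / m - 1) := by
      intro y hy
      rcases eq_or_lt_of_le hy with h0 | h0
      · rw [← h0]; simp
      · have h3 := Real.log_le_sub_one_of_pos (show 0 < y / m by positivity)
        rw [Real.log_div h0.ne' hm0.ne'] at h3
        nlinarith [sq_nonneg y]
    have k1 := key p hp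
    have k2 := key q hq
    have e : p ^ 2 * (p / m - 1) + q ^ 2 * (q / m - 1) = 4 * ((p - q) / 2) ^ 2 := by
      have h2 : p + q = 2 * m := by rw [hm]; ring
      have hq' : q = 2 * m - p := by linarith
      rw [hq']
      field_simp
      ring
    have e2 : p ^ 2 + q ^ 2 = 2 * m ^ 2 + 2 * ((p - q) / 2) ^ 2 := by
      rw [hm]; ring
    have e3 : p ^ 2 * log m + q ^ 2 * log m =
        2 * (m ^ 2 * log m) + 2 * (((p - q) / 2) ^ 2 * log m) := by
      rw [← add_mul, e2]; ring
    have e4 : ((p - q) / 2) ^ 2 * -log m = - (((p - q) / 2) ^ 2 * log m) := by ring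
    rw [e4]
    linarith

end Pool.Agent.Hhelper40.Junta
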