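import Mathlib
import Pool.Agent.Hhelper40.JuntaReal

set_option autoImplicit false
set_option linter.unusedSectionVars false

namespace Pool.Agent.Hhelper40.Junta

open Real

variable {ι : Type*} [DecidableEq ι]

/-- flip coordinate `i` -/
def flip (i : ι) (x : ι → Bool) : ι → Bool := Function.update x i (!(x i))

@[simp] lemma flip_same (i : ι) (x : ι → Bool) : flip i x i = !(x i) := by
  simp [flip]

@[simp] lemma flip_ne {i j : ι} (h : j ≠ i) (x : ι → Bool) : flip i x j = x j := by
  simp [flip, h]

@[simp] lemma flip_flip (i : ι) (x : ι → Bool) : flip i (flip i x) = x := by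
  funext j
  by_cases h : j = i
  · subst h; simp
  · simp [h]

lemma flip_comm (i j : ι) (x : ι → Bool) : flip i (flip j x) = flip j (flip i x) := by
  by_cases hij : i = j
  · subst hij; rfl
  · funext k
    by_cases h1 : k = i
    · subst h1
      simp [hij]
    · by_cases h2 : k = j
      · subst h2
        simp [Ne.symm hij]
      · simp [h1, h2]

/-- precomposition with a flip -/
def sh (i : ι) (g : (ι → Bool) → ℝ) : (ι → Bool) → ℝ := fun x => g (flip i x)

/-- averaging over coordinate `i` -/
noncomputable def avg (i : ι) (g : (ι → Bool) → ℝ) : (ι → Bool) → ℝ :=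
  fun x => (g x + g (flip i x)) / 2

/-- difference with the average -/
noncomputable def dd (i : ι) (g : (ι → Bool) → ℝ) : (ι → Bool) → ℝ :=
  fun x => (g x - g (flip i x)) / 2

/-- invariance under the flip of coordinate `i` -/
def Inv (i : ι) (g : (ι → Bool) → ℝ) : Prop := ∀ x, g (flip i x) = g x

lemma avg_nonneg {i : ι} {g : (ι → Bool) → ℝ} (hg : ∀ x, 0 ≤ g x) : ∀ x, 0 ≤ avg i g x := by
  intro x
  have h1 := hg x
  have h2 := hg (flip i x)
  unfold avg
  linarith

lemma avg_le_one {i : ι} {g : (ι → Bool) → ℝ} (hg : ∀ x, g x ≤ 1) : ∀ x, avg i g x ≤ 1 := by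
  intro x
  have h1 := hg x
  have h2 := hg (flip i x)
  unfold avg
  linarith

lemma avg_inv (i : ι) (g : (ι → Bool) → ℝ) : Inv i (avg i g) := by
  intro x
  unfold avg
  rw [flip_flip]
  ring

lemma avg_comm (i j : ι) (g : (ι → Bool) → ℝ) : avg i (avg j g) = avg j (avg i g) := by
  funext x
  unfold avg
  rw [flip_comm j i]
  ring

lemma avg_of_inv {i : ι} {g : (ι → Bool) → ℝ} (h : Inv i g) : avg i g = g := by
  funext x
  unfold avg
  rw [h x]
  ring

lemma Inv.avg {i : ι} {g : (ι → Bool) → ℝ} (h : Inv i g) (j : ι) : Inv i (avg j g) := by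
  intro x
  unfold Junta.avg
  rw [flip_comm j i, h, h]

lemma Inv.sh {i : ι} {g : (ι → Bool) → ℝ} (h : Inv i g) (j : ι) : Inv i (sh j g) := by
  intro x
  unfold Junta.sh
  rw [flip_comm j i, h]

lemma avg_sh (i j : ι) (g : (ι → Bool) → ℝ) : avg i (sh j g) = sh j (avg i g) := by
  funext x
  unfold avg sh
  rw [flip_comm j i]

lemma sub_avg (i : ι) (g : (ι → Bool) → ℝ) (x : ι → Bool) : g x - avg i g x = dd i g x := by
  unfold avg dd
  ring

lemma abs_dd_le {i : ι} {g : (ι → Bool) → ℝ} (hg : ∀ x, 0 ≤ g x) (x : ι → Bool) :
    |dd i g x| ≤ avg i g x := by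
  have h1 := hg x
  have h2 := hg (flip i x)
  unfold dd avg
  rw [abs_le]
  constructor <;> linarith

variable [Fintype ι]

/-- expectation over the uniform cube -/
noncomputable def E (g : (ι → Bool) → ℝ) : ℝ := (∑ x, g x) / 2 ^ Fintype.card ι

lemma E_add (g h : (ι → Bool) → ℝ) : E (fun x => g x + h x) = E g + E h := by
  unfold E
  rw [Finset.sum_add_distrib, add_div]

lemma E_sub (g h : (ι → Bool) → ℝ) : E (fun x => g x - h x) = E g - E h := by
  unfold E
  rw [Finset.sum_sub_distrib, sub_div]

lemma E_neg (g : (ι → Bool) → ℝ) : E (fun x => - g x) = - E g := by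
  unfold E
  rw [Finset.sum_neg_distrib, neg_div]

lemma E_const_mul (c : ℝ) (g : (ι → Bool) → ℝ) : E (fun x => c * g x) = c * E g := by
  unfold E
  rw [← Finset.mul_sum, mul_div_assoc]

lemma E_mul_const (c : ℝ) (g : (ι → Bool) → ℝ) : E (fun x => g x * c) = E g * c := by
  unfold E
  rw [← Finset.sum_mul, div_mul_eq_mul_div]

lemma E_div_const (c : ℝ) (g : (ι → Bool) → ℝ) : E (fun x => g x / c) = E g / c := by
  unfold E
  rw [← Finset.sum_div, div_right_comm]

lemma E_const (c : ℝ) : E (fun _ : ι → Bool => c) = c := by
  unfold E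
  rw [Finset.sum_const, Finset.card_univ, nsmul_eq_mul]
  simp

lemma E_mono {g h : (ι → Bool) → ℝ} (H : ∀ x, g x ≤ h x) : E g ≤ E h := by
  unfold E
  apply div_le_div_of_nonneg_right _ (by positivity)
  exact Finset.sum_le_sum (fun x _ => H x)

lemma E_nonneg {g : (ι → Bool) → ℝ} (H : ∀ x, 0 ≤ g x) : 0 ≤ E g := by
  unfold E
  apply div_nonneg _ (by positivity)
  exact Finset.sum_nonneg (fun x _ => H x)

lemma E_flip (i : ι) (g : (ι → Bool) → ℝ) : E (fun x => g (flip i x)) = E g := by
  unfold E
  congr 1
  exact Equiv.sum_comp ⟨flip i, flip i, flip_flip i, flip_flip i⟩ g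

lemma E_sum {κ : Type*} (s : Finset κ) (g : κ → (ι → Bool) → ℝ) :
    E (fun x => ∑ k ∈ s, g k x) = ∑ k ∈ s, E (g k) := by
  unfold E
  rw [Finset.sum_comm, Finset.sum_div]

lemma E_avg (i : ι) (g : (ι → Bool) → ℝ) : E (avg i g) = E g := by
  unfold avg
  rw [E_div_const, E_add, E_flip]
  ring

lemma E_mul_avg {i : ι} {h : (ι → Bool) → ℝ} (hh : Inv i h) (g : (ι → Bool) → ℝ) :
    E (fun x => h x * avg i g x) = E (fun x => h x * g x) := by
  rw [← E_avg i (fun x => h x * g x)]
  congr 1
  funext x
  unfold avg
  simp only
  rw [hh x]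
  ring

/-- pairing argument: expectation of a sum over the two points of a fibre -/
lemma E_pair (i : ι) (g : (ι → Bool) → ℝ) : E (fun x => (g x + g (flip i x)) / 2) = E g :=
  E_avg i g

/-- entropy -/
noncomputable def Ent (g : (ι → Bool) → ℝ) : ℝ := E (fun x => phi (g x)) - phi (E g)

/-- local entropy in direction `i` -/
noncomputable def Le (i : ι) (g : (ι → Bool) → ℝ) : ℝ := E (fun x => ent2 (g x) (g (flip i x)))

lemma Le_eq (i : ι) (g : (ι → Bool) → ℝ) :
    Le i g = E (fun x => phi (g x)) - E (fun x => phi (avg i g x)) := by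
  unfold Le
  rw [← E_pair i (fun x => phi (g x)), ← E_sub]
  rfl

lemma Le_avg_le (i u : ι) {g : (ι → Bool) → ℝ} (hg : ∀ x, 0 ≤ g x) :
    Le i (avg u g) ≤ Le i g := by
  unfold Le
  rw [← E_pair u (fun x => ent2 (g x) (g (flip i x)))]
  apply E_mono
  intro x
  have h := ent2_convex (g x) (g (flip i x)) (g (flip u x)) (g (flip i (flip u x)))
    (hg _) (hg _) (hg _) (hg _)
  unfold avg
  rw [flip_comm u i]
  exact h

/-- iterated averaging over a list of coordinates -/
noncomputable def run : List ι → ((ι → Bool) → ℝ) → ((ι → Bool) → ℝ)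
  | [], g => g
  | u :: L, g => run L (avg u g)

/-- sum of a functional along the iterated averaging -/
noncomputable def ssum (Θ : ι → ((ι → Bool) → ℝ) → ℝ) : List ι → ((ι → Bool) → ℝ) → ℝ
  | [], _ => 0
  | u :: L, g => Θ u g + ssum Θ L (avg u g)

lemma run_avg (L : List ι) (u : ι) (g : (ι → Bool) → ℝ) :
    run L (avg u g) = avg u (run L g) := by
  induction L generalizing g with
  | nil => rfl
  | cons v L ih =>
    simp only [run]
    rw [avg_comm, ih]

lemma run_nonneg (L : List ι) {g : (ι → Bool) → ℝ} (hg : ∀ x, 0 ≤ g x) :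
    ∀ x, 0 ≤ run L g x := by
  induction L generalizing g with
  | nil => exact hg
  | cons v L ih => exact ih (avg_nonneg hg)

lemma run_le_one (L : List ι) {g : (ι → Bool) → ℝ} (hg : ∀ x, g x ≤ 1) :
    ∀ x, run L g x ≤ 1 := by
  induction L generalizing g with
  | nil => exact hg
  | cons v L ih => exact ih (avg_le_one hg)

lemma run_perm {L L' : List ι} (h : L.Perm L') (g : (ι → Bool) → ℝ) : run L g = run L' g := by
  induction h generalizing g with
  | nil => rfl
  | cons u _ ih => exact ih _
  | swap u v L => simp only [run]; rw [avg_comm]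
  | trans _ _ ih1 ih2 => rw [ih1, ih2]

lemma run_append (L L' : List ι) (g : (ι → Bool) → ℝ) : run (L ++ L') g = run L' (run L g) := by
  induction L generalizing g with
  | nil => rfl
  | cons u L ih => exact ih _

lemma run_sh (L : List ι) (i : ι) (g : (ι → Bool) → ℝ) : run L (sh i g) = sh i (run L g) := by
  induction L generalizing g with
  | nil => rfl
  | cons u L ih =>
    simp only [run]
    rw [avg_sh, ih]

lemma run_inv_of_mem {L : List ι} {u : ι} (hu : u ∈ L) (g : (ι → Bool) → ℝ) :
    Inv u (run L g) := by
  induction L generalizing g with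
  | nil => simp at hu
  | cons v L ih =>
    simp only [run]
    rcases List.mem_cons.1 hu with h | h
    · subst h
      rw [run_avg]
      exact avg_inv _ _
    · exact ih h _

lemma run_inv {L : List ι} {i : ι} {g : (ι → Bool) → ℝ} (hg : Inv i g) : Inv i (run L g) := by
  induction L generalizing g with
  | nil => exact hg
  | cons v L ih => exact ih (hg.avg v)

lemma run_add (L : List ι) (g h : (ι → Bool) → ℝ) :
    run L (fun x => g x + h x) = fun x => run L g x + run L h x := by
  induction L generalizing g h with
  | nil => rfl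
  | cons v L ih =>
    simp only [run]
    rw [← ih]
    congr 1
    funext x
    unfold avg
    ring

lemma run_sub (L : List ι) (g h : (ι → Bool) → ℝ) :
    run L (fun x => g x - h x) = fun x => run L g x - run L h x := by
  induction L generalizing g h with
  | nil => rfl
  | cons v L ih =>
    simp only [run]
    rw [← ih]
    congr 1
    funext x
    unfold avg
    ring

lemma run_neg (L : List ι) (g : (ι → Bool) → ℝ) :
    run L (fun x => - g x) = fun x => - run L g x := by
  induction L generalizing g with
  | nil => rfl
  | cons v L ih =>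
    simp only [run]
    rw [← ih]
    congr 1
    funext x
    unfold avg
    ring

lemma run_mono (L : List ι) {g h : (ι → Bool) → ℝ} (H : ∀ x, g x ≤ h x) :
    ∀ x, run L g x ≤ run L h x := by
  induction L generalizing g h with
  | nil => exact H
  | cons v L ih =>
    apply ih
    intro x
    have h1 := H x
    have h2 := H (flip v x)
    unfold avg
    linarith

lemma run_abs (L : List ι) (g : (ι → Bool) → ℝ) (x : ι → Bool) :
    |run L g x| ≤ run L (fun x => |g x|) x := by
  rw [abs_le]
  constructor
  · have := run_mono L (g := fun x => - |g x|) (h := g) (fun x => neg_abs_le (g x)) x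
    rw [run_neg] at this
    exact this
  · exact run_mono L (fun x => le_abs_self (g x)) x

lemma E_run (L : List ι) (g : (ι → Bool) → ℝ) : E (run L g) = E g := by
  induction L generalizing g with
  | nil => rfl
  | cons v L ih =>
    simp only [run]
    rw [ih, E_avg]

lemma E_mul_run {L : List ι} {h : (ι → Bool) → ℝ} (hh : ∀ u ∈ L, Inv u h)
    (g : (ι → Bool) → ℝ) : E (fun x => h x * run L g x) = E (fun x => h x * g x) := by
  induction L generalizing g with
  | nil => rfl
  | cons v L ih =>
    simp only [run]
    rw [ih (fun u hu => hh u (List.mem_cons_of_mem _ hu)), E_mul_avg (hh v (by simp))]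

/-- averaging over every coordinate gives the mean -/
lemma run_all {L : List ι} (hL : ∀ i, i ∈ L) (g : (ι → Bool) → ℝ) (x : ι → Bool) :
    run L g x = E g := by
  have hinv : ∀ i, Inv i (run L g) := fun i => run_inv_of_mem (hL i) g
  have hconst : ∀ y z : ι → Bool, run L g y = run L g z := by
    intro y z
    -- change coordinates one by one
    have key : ∀ (s : Finset ι) (y z : ι → Bool), (∀ i, i ∉ s → y i = z i) →
        run L g y = run L g z := by
      intro s
      induction s using Finset.induction_on with
      | empty =>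
        intro y z h
        have : y = z := funext (fun i => h i (by simp))
        rw [this]
      | insert a s ha ih =>
        intro y z h
        by_cases hya : y a = z a
        · apply ih
          intro i hi
          by_cases hia : i = a
          · rw [hia]; exact hya
          · exact h i (by simp [hia, hi])
        · rw [← hinv a y]
          apply ih
          intro i hi
          by_cases hia : i = a
          · subst hia
            rw [flip_same]
            cases hy : y i <;> cases hz : z i <;> simp_all
          · rw [flip_ne hia]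
            exact h i (by simp [hia, hi])
    exact key Finset.univ y z (by simp)
  have h1 : run L g = fun _ => run L g x := by
    funext y
    exact hconst y x
  have h2 : E (run L g) = run L g x := by
    rw [h1]
    exact E_const _
  rw [← h2, E_run]

/-- partial tensorisation of entropy -/
lemma tens_run (L : List ι) {g : (ι → Bool) → ℝ} (hg : ∀ x, 0 ≤ g x) :
    E (fun x => phi (g x)) - E (fun x => phi (run L g x)) ≤ (L.map (fun i => Le i g)).sum := by
  induction L generalizing g with
  | nil => simp [run]
  | cons u L ih =>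
    simp only [run, List.map_cons, List.sum_cons]
    have h1 := ih (avg_nonneg (i := u) hg)
    have h2 := Le_eq u g
    have h3 : (L.map (fun i => Le i (avg u g))).sum ≤ (L.map (fun i => Le i g)).sum :=
      List.sum_le_sum (fun i _ => Le_avg_le i u hg)
    linarith

/-- tensorisation of entropy -/
lemma tens {g : (ι → Bool) → ℝ} (hg : ∀ x, 0 ≤ g x) : Ent g ≤ ∑ i, Le i g := by
  have h := tens_run (Finset.univ : Finset ι).toList hg
  have h1 : E (fun x => phi (run (Finset.univ : Finset ι).toList g x)) = phi (E g) := by
    have : (fun x => phi (run (Finset.univ : Finset ι).toList g x)) = fun _ => phi (E g) := by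
      funext x
      rw [run_all (fun i => by simp)]
    rw [this, E_const]
  rw [h1] at h
  rw [Finset.sum_map_toList] at h
  exact h

end Pool.Agent.Hhelper40.Junta
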