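import Mathlib
import Pool.Agent.Hhelper40.JuntaCube

set_option autoImplicit false
set_option linter.unusedSectionVars false

namespace Pool.Agent.Hhelper40.Junta

open Real

variable {ι : Type*} [DecidableEq ι] [Fintype ι]

lemma E_congr {g h : (ι → Bool) → ℝ} (H : ∀ x, g x = h x) : E g = E h := by
  congr 1
  funext x
  exact H x

lemma ssum_mono {Θ Θ' : ι → ((ι → Bool) → ℝ) → ℝ} (H : ∀ u g, Θ u g ≤ Θ' u g) (L : List ι)
    (g : (ι → Bool) → ℝ) : ssum Θ L g ≤ ssum Θ' L g := by
  induction L generalizing g with
  | nil => exact le_rfl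
  | cons u L ih =>
    simp only [ssum]
    exact add_le_add (H u g) (ih _)

lemma ssum_sum {κ : Type*} (s : Finset κ) (Θ : κ → ι → ((ι → Bool) → ℝ) → ℝ) (L : List ι)
    (g : (ι → Bool) → ℝ) :
    ssum (fun u g => ∑ k ∈ s, Θ k u g) L g = ∑ k ∈ s, ssum (Θ k) L g := by
  induction L generalizing g with
  | nil => simp [ssum]
  | cons u L ih =>
    simp only [ssum]
    rw [ih, Finset.sum_add_distrib]

lemma ssum_add (Θ Θ' : ι → ((ι → Bool) → ℝ) → ℝ) (L : List ι) (g : (ι → Bool) → ℝ) :
    ssum (fun u g => Θ u g + Θ' u g) L g = ssum Θ L g + ssum Θ' L g := by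
  induction L generalizing g with
  | nil => simp [ssum]
  | cons u L ih =>
    simp only [ssum]
    rw [ih]
    ring

lemma ssum_const_mul (c : ℝ) (Θ : ι → ((ι → Bool) → ℝ) → ℝ) (L : List ι) (g : (ι → Bool) → ℝ) :
    ssum (fun u g => c * Θ u g) L g = c * ssum Θ L g := by
  induction L generalizing g with
  | nil => simp [ssum]
  | cons u L ih =>
    simp only [ssum]
    rw [ih]
    ring

/-- `W`: the martingale `L²` identity with an invariant weight. -/
lemma ssum_sq {L : List ι} {h : (ι → Bool) → ℝ} (hh : ∀ u ∈ L, Inv u h) (g : (ι → Bool) → ℝ) :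
    ssum (fun u g => E (fun x => h x * (dd u g x) ^ 2)) L g =
      E (fun x => h x * (g x) ^ 2) - E (fun x => h x * (run L g x) ^ 2) := by
  induction L generalizing g with
  | nil => simp [ssum, run]
  | cons u L ih =>
    simp only [ssum, run]
    rw [ih (fun v hv => hh v (List.mem_cons_of_mem _ hv))]
    have h1 : E (fun x => h x * (g x) ^ 2) =
        E (fun x => h x * (dd u g x) ^ 2) + E (fun x => h x * (avg u g x) ^ 2) := by
      rw [← E_pair u (fun x => h x * (g x) ^ 2), ← E_add]
      apply E_congr
      intro x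
      rw [hh u (by simp) x]
      unfold dd avg
      ring
    linarith

lemma ssum_sq_one (L : List ι) (g : (ι → Bool) → ℝ) :
    ssum (fun u g => E (fun x => (dd u g x) ^ 2)) L g =
      E (fun x => (g x) ^ 2) - E (fun x => (run L g x) ^ 2) := by
  have := ssum_sq (L := L) (h := fun _ => 1) (fun _ _ _ => rfl) g
  simpa using this

lemma dd_self_flip (i : ι) (g : (ι → Bool) → ℝ) (x : ι → Bool) :
    dd i g (flip i x) = - dd i g x := by
  unfold dd
  rw [flip_flip]
  ring

/-- cost of the direction `i` on the part where the `ℓ²` estimate is used -/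
lemma ssum_cost (i : ι) {L : List ι} {h : (ι → Bool) → ℝ} (h0 : ∀ x, 0 ≤ h x)
    (hh : ∀ u ∈ L, Inv u h) (g : (ι → Bool) → ℝ) :
    ssum (fun u g => E (fun x => h x * ent2 ((dd u g x) ^ 2) ((dd u g (flip i x)) ^ 2))) L g ≤
      E (fun x => h x * (g x - g (flip i x)) ^ 2) := by
  induction L generalizing g with
  | nil =>
    simp only [ssum]
    exact E_nonneg (fun x => mul_nonneg (h0 x) (sq_nonneg _))
  | cons u L ih =>
    simp only [ssum]
    have ih' := ih (fun v hv => hh v (List.mem_cons_of_mem _ hv)) (avg u g)
    by_cases hu : u = i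
    · subst hu
      have h1 : E (fun x => h x * ent2 ((dd u g x) ^ 2) ((dd u g (flip u x)) ^ 2)) = 0 := by
        have : (fun x => h x * ent2 ((dd u g x) ^ 2) ((dd u g (flip u x)) ^ 2)) =
            fun _ => (0 : ℝ) := by
          funext x
          rw [dd_self_flip, neg_sq, ent2_self, mul_zero]
        rw [this, E_const]
      have h2 : E (fun x => h x * (avg u g x - avg u g (flip u x)) ^ 2) = 0 := by
        have : (fun x => h x * (avg u g x - avg u g (flip u x)) ^ 2) = fun _ => (0 : ℝ) := by
          funext x
          rw [avg_inv u g x]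
          ring
        rw [this, E_const]
      have h3 : 0 ≤ E (fun x => h x * (g x - g (flip u x)) ^ 2) :=
        E_nonneg (fun x => mul_nonneg (h0 x) (sq_nonneg _))
      linarith
    · have h1 : E (fun x => h x * ent2 ((dd u g x) ^ 2) ((dd u g (flip i x)) ^ 2)) ≤
          E (fun x => h x * (dd u g x - dd u g (flip i x)) ^ 2) :=
        E_mono (fun x => mul_le_mul_of_nonneg_left (ent2_sq_le _ _) (h0 x))
      have h2 : E (fun x => h x * (g x - g (flip i x)) ^ 2) =
          E (fun x => h x * (dd u g x - dd u g (flip i x)) ^ 2) +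
          E (fun x => h x * (avg u g x - avg u g (flip i x)) ^ 2) := by
        rw [← E_pair u (fun x => h x * (g x - g (flip i x)) ^ 2), ← E_add]
        apply E_congr
        intro x
        rw [hh u (by simp) x]
        unfold dd avg
        rw [flip_comm u i]
        ring
      linarith

/-- the potential estimate for `log` weights -/
lemma ssum_log {L : List ι} {g : (ι → Bool) → ℝ} (hg : ∀ x, 0 ≤ g x) :
    ssum (fun u g => E (fun x => (dd u g x) ^ 2 * (- log (avg u g x)))) L g ≤
      E (fun x => - ((g x) ^ 2 * log (g x))) - E (fun x => - ((run L g x) ^ 2 * log (run L g x)))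
      + 2 * ssum (fun u g => E (fun x => (dd u g x) ^ 2)) L g := by
  induction L generalizing g with
  | nil => simp [ssum, run]
  | cons u L ih =>
    simp only [ssum, run]
    have ih' := ih (avg_nonneg (i := u) hg)
    have h1 : E (fun x => (dd u g x) ^ 2 * (- log (avg u g x))) ≤
        E (fun x => - ((g x) ^ 2 * log (g x))) - E (fun x => - ((avg u g x) ^ 2 * log (avg u g x)))
        + 2 * E (fun x => (dd u g x) ^ 2) := by
      rw [← E_pair u (fun x => - ((g x) ^ 2 * log (g x))), ← E_sub, ← E_const_mul, ← E_add]
      apply E_mono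
      intro x
      have := psi_ineq (g x) (g (flip u x)) (hg _) (hg _)
      unfold dd avg
      linarith
    linarith

/-- the `χ²` estimate -/
lemma ssum_chi {L : List ι} {g : (ι → Bool) → ℝ} (hg : ∀ x, 0 ≤ g x) :
    E (fun x => phi (g x)) - E (fun x => phi (run L g x)) ≤
      log 2 * ssum (fun u g => E (fun x => (dd u g x) ^ 2 / avg u g x)) L g := by
  induction L generalizing g with
  | nil => simp [ssum, run]
  | cons u L ih =>
    simp only [ssum, run]
    have ih' := ih (avg_nonneg (i := u) hg)
    have h1 : Le u g ≤ log 2 * E (fun x => (dd u g x) ^ 2 / avg u g x) := by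
      unfold Le
      rw [← E_const_mul]
      apply E_mono
      intro x
      have := ent2_le_chi (g x) (g (flip u x)) (hg _) (hg _)
      have e : (g x - g (flip u x)) ^ 2 / (2 * (g x + g (flip u x))) =
          (dd u g x) ^ 2 / avg u g x := by
        unfold dd avg
        rcases eq_or_ne (g x + g (flip u x)) 0 with h0 | h0
        · rw [h0]; simp
        · field_simp
      rw [← e]
      exact this
    rw [Le_eq] at h1
    linarith

lemma E_abs_dd_avg_le (u v : ι) (g : (ι → Bool) → ℝ) :
    E (fun x => |dd v (avg u g) x|) ≤ E (fun x => |dd v g x|) := by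
  rw [← E_pair u (fun x => |dd v g x|)]
  apply E_mono
  intro x
  have h : dd v (avg u g) x = (dd v g x + dd v g (flip u x)) / 2 := by
    unfold dd avg
    rw [flip_comm u v]
    ring
  rw [h, abs_div, abs_two]
  have := abs_add_le (dd v g x) (dd v g (flip u x))
  linarith

lemma ssum_L1 (L : List ι) (g : (ι → Bool) → ℝ) :
    ssum (fun u g => E (fun x => |dd u g x|)) L g ≤ (L.map (fun u => E (fun x => |dd u g x|))).sum := by
  induction L generalizing g with
  | nil => simp [ssum]
  | cons u L ih =>
    simp only [ssum, List.map_cons, List.sum_cons]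
    have h1 := ih (avg u g)
    have h2 : (L.map (fun v => E (fun x => |dd v (avg u g) x|))).sum ≤
        (L.map (fun v => E (fun x => |dd v g x|))).sum :=
      List.sum_le_sum (fun v _ => E_abs_dd_avg_le u v g)
    linarith

lemma ssum_A {L : List ι} {g : (ι → Bool) → ℝ} (hg : ∀ x, 0 ≤ g x) (hg1 : ∀ x, g x ≤ 1) :
    ssum (fun u g => E (fun x => |dd u g x| * avg u g x)) L g ≤
      ssum (fun u g => E (fun x => (dd u g x) ^ 2)) L g +
      ssum (fun u g => E (fun x => |dd u g x|)) L g -
      ssum (fun u g => E (fun x => (dd u g x) ^ 2 / avg u g x)) L g := by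
  induction L generalizing g with
  | nil => simp [ssum]
  | cons u L ih =>
    simp only [ssum]
    have ih' := ih (avg_nonneg (i := u) hg) (avg_le_one (i := u) hg1)
    have h1 : E (fun x => |dd u g x| * avg u g x) ≤ E (fun x => (dd u g x) ^ 2) +
        E (fun x => |dd u g x|) - E (fun x => (dd u g x) ^ 2 / avg u g x) := by
      rw [← E_add, ← E_sub]
      apply E_mono
      intro x
      have hle := abs_dd_le hg (i := u) x
      have hG0 := avg_nonneg (i := u) hg x
      have hG1 := avg_le_one (i := u) hg1 x
      rcases eq_or_lt_of_le hG0 with h0 | h0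
      · rw [← h0] at hle ⊢
        have : |dd u g x| = 0 := le_antisymm hle (abs_nonneg _)
        simp [abs_eq_zero.1 this]
      · rw [← sq_abs]
        set D := |dd u g x|
        set G := avg u g x
        have hD0 : 0 ≤ D := abs_nonneg _
        have h2 : D ^ 2 / G * G = D ^ 2 := by field_simp
        have h3 : D ^ 2 / G ≤ D := by
          rw [div_le_iff₀ h0]
          nlinarith
        nlinarith
    linarith

/-- lower bound for the entropy of a square through a weighted `L¹` norm -/
lemma ent_low (d θ : (ι → Bool) → ℝ) (hθ1 : ∀ x, θ x ≤ 1) (hd : ∀ x, |d x| ≤ θ x)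
    (δ : ℝ) (hδd : E (fun x => |d x|) ≤ δ) :
    E (fun x => (d x) ^ 2) * (- log δ) +
      (E (fun x => (d x) ^ 2) - E (fun x => |d x| * θ x)) -
      2 * E (fun x => (d x) ^ 2 * (- log (θ x))) ≤ Ent (fun x => (d x) ^ 2) := by
  by_cases hz : ∀ x, d x = 0
  · have h1 : (fun x => (d x) ^ 2) = fun _ => (0 : ℝ) := by
      funext x; rw [hz x]; ring
    have h2 : (fun x => |d x| * θ x) = fun _ => (0 : ℝ) := by
      funext x; rw [hz x]; simp
    have h3 : (fun x => (d x) ^ 2 * (- log (θ x))) = fun _ => (0 : ℝ) := by
      funext x; rw [hz x]; ring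
    unfold Ent
    rw [h1, h2, h3]
    simp [E_const]
  · push Not at hz
    obtain ⟨x₀, hx₀⟩ := hz
    set w := E (fun x => (d x) ^ 2) with hw
    set a := E (fun x => |d x| * θ x) with ha
    have hw0 : 0 < w := by
      rw [hw]
      unfold E
      apply div_pos _ (by positivity)
      apply Finset.sum_pos' (fun x _ => sq_nonneg _)
      exact ⟨x₀, Finset.mem_univ _, by positivity⟩
    have hwa : w ≤ a := by
      apply E_mono
      intro x
      rw [← sq_abs]
      have := hd x
      nlinarith [abs_nonneg (d x)]
    have ha0 : 0 < a := lt_of_lt_of_le hw0 hwa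
    have haδ : a ≤ δ := by
      refine le_trans (E_mono (fun x => ?_)) hδd
      have := hθ1 x
      nlinarith [abs_nonneg (d x)]
    have hδ0 : 0 < δ := lt_of_lt_of_le ha0 haδ
    -- pointwise inequality
    have hpt : ∀ x, 2 * (-((d x) ^ 2 * (- log (θ x)))) + 2 * log (w / a) * (d x) ^ 2 +
        (2 * (d x) ^ 2 - 2 * (w / a) * (|d x| * θ x)) ≤ phi ((d x) ^ 2) := by
      intro x
      rcases eq_or_ne (d x) 0 with h0 | h0
      · simp [h0]
      · have hdp : 0 < |d x| := abs_pos.mpr h0
        have hθ : 0 < θ x := lt_of_lt_of_le hdp (hd x)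
        have hpos : 0 < (θ x / |d x|) * (w / a) := by positivity
        have h1 := Real.log_le_sub_one_of_pos hpos
        rw [Real.log_mul (by positivity) (by positivity), Real.log_div hθ.ne' hdp.ne'] at h1
        have h2 : phi ((d x) ^ 2) = 2 * (d x) ^ 2 * log |d x| := by
          unfold phi
          rw [← sq_abs (d x), Real.log_pow]
          push_cast
          ring
        rw [h2]
        have h3 : (d x) ^ 2 * (log (θ x) - log |d x| + log (w / a)) ≤
            (d x) ^ 2 * (θ x / |d x| * (w / a) - 1) :=
          mul_le_mul_of_nonneg_left h1 (sq_nonneg _)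
        have h4 : (d x) ^ 2 * (θ x / |d x| * (w / a) - 1) =
            (w / a) * (|d x| * θ x) - (d x) ^ 2 := by
          rw [← sq_abs (d x)]
          field_simp
        rw [h4] at h3
        linarith
    have hE : 2 * (- E (fun x => (d x) ^ 2 * (- log (θ x)))) + 2 * log (w / a) * w +
        (2 * w - 2 * (w / a) * a) ≤ E (fun x => phi ((d x) ^ 2)) := by
      have := E_mono hpt
      rw [E_add, E_add, E_const_mul, E_const_mul, E_sub, E_const_mul, E_const_mul, E_neg] at this
      exact this
    have h5 : 2 * w - 2 * (w / a) * a = 0 := by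
      field_simp
      ring
    rw [h5] at hE
    have h6 : log (w / a) = log w - log a := Real.log_div hw0.ne' ha0.ne'
    have h7 : w - a ≤ w * log (w / a) := by
      have h8 := Real.log_le_sub_one_of_pos (show 0 < a / w by positivity)
      have h9 : log (a / w) = - log (w / a) := by rw [← Real.log_inv, inv_div]
      rw [h9] at h8
      have h10 : w * (- log (w / a)) ≤ w * (a / w - 1) := mul_le_mul_of_nonneg_left h8 hw0.le
      have h11 : w * (a / w - 1) = a - w := by field_simp
      linarith
    have h8 : w * (- log δ) ≤ w * (- log a) := by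
      apply mul_le_mul_of_nonneg_left _ hw0.le
      have := Real.log_le_log ha0 haδ
      linarith
    unfold Ent phi
    rw [← hw]
    have hE' : E (fun x => phi ((d x) ^ 2)) = E (fun x => (d x) ^ 2 * log ((d x) ^ 2)) := rfl
    rw [← hE']
    have h12 : 2 * log (w / a) * w = w * log (w / a) + (w * log w - w * log a) := by
      rw [h6]; ring
    linarith

/-- lower bound for the sum of the entropies of the squared increments -/
lemma ssum_ent_low {L : List ι} {g : (ι → Bool) → ℝ} (hg : ∀ x, 0 ≤ g x) (hg1 : ∀ x, g x ≤ 1)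
    (δ : ℝ) (hδ : ∀ u ∈ L, E (fun x => |dd u g x|) ≤ δ) :
    ssum (fun u g => E (fun x => (dd u g x) ^ 2)) L g * (- log δ) +
      (ssum (fun u g => E (fun x => (dd u g x) ^ 2)) L g -
        ssum (fun u g => E (fun x => |dd u g x| * avg u g x)) L g) -
      2 * ssum (fun u g => E (fun x => (dd u g x) ^ 2 * (- log (avg u g x)))) L g ≤
      ssum (fun u g => Ent (fun x => (dd u g x) ^ 2)) L g := by
  induction L generalizing g with
  | nil => simp [ssum]
  | cons u L ih =>
    simp only [ssum]
    have ih' := ih (avg_nonneg (i := u) hg) (avg_le_one (i := u) hg1)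
      (fun v hv => (E_abs_dd_avg_le u v g).trans (hδ v (List.mem_cons_of_mem _ hv)))
    have h1 := ent_low (dd u g) (avg u g) (avg_le_one (i := u) hg1) (abs_dd_le hg) δ
      (hδ u (by simp))
    linarith

end Pool.Agent.Hhelper40.Junta
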