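import Mathlib
import Pool.Agent.Hhelper40.JuntaSteps

set_option autoImplicit false
set_option linter.unusedSectionVars false

namespace Pool.Agent.Hhelper40.Junta

open Real

variable {ι : Type*} [DecidableEq ι] [Fintype ι]

section one

variable (f : (ι → Bool) → ℝ) (L : List ι)

/-- the mean of `|f(x) - f(x ⊕ e_i)|` on the fibres -/
noncomputable def V (i : ι) : (ι → Bool) → ℝ := run L (fun x => |f x - f (flip i x)|)

noncomputable def S (i : ι) : (ι → Bool) → ℝ := fun x => run L f x + run L f (flip i x)

noncomputable def Q (i : ι) : (ι → Bool) → ℝ := fun x => (V f L i x) ^ 2 / S f L i x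

noncomputable def h1 (i : ι) : (ι → Bool) → ℝ := fun x => if 2 * V f L i x < S f L i x then 1 else 0
noncomputable def h2 (i : ι) : (ι → Bool) → ℝ := fun x => if 2 * V f L i x < S f L i x then 0 else 1

lemma absdiff_inv (i : ι) : Inv i (fun x => |f x - f (flip i x)|) := by
  intro x
  simp only
  rw [flip_flip, abs_sub_comm]

lemma V_inv_self (i : ι) : Inv i (V f L i) := run_inv (absdiff_inv f i)

lemma V_inv {i u : ι} (hu : u ∈ L) : Inv u (V f L i) := run_inv_of_mem hu _

lemma S_inv_self (i : ι) : Inv i (S f L i) := by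
  intro x
  unfold S
  rw [flip_flip, add_comm]

lemma S_inv {i u : ι} (hu : u ∈ L) : Inv u (S f L i) := by
  intro x
  unfold S
  have h := run_inv_of_mem hu f
  rw [h x, flip_comm i u, h]

lemma h1_inv_self (i : ι) : Inv i (h1 f L i) := by
  intro x
  unfold h1
  rw [V_inv_self, S_inv_self]

lemma h2_inv_self (i : ι) : Inv i (h2 f L i) := by
  intro x
  unfold h2
  rw [V_inv_self, S_inv_self]

lemma h1_inv {i u : ι} (hu : u ∈ L) : Inv u (h1 f L i) := by
  intro x
  unfold h1
  rw [V_inv f L hu, S_inv f L hu]

lemma h2_inv {i u : ι} (hu : u ∈ L) : Inv u (h2 f L i) := by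
  intro x
  unfold h2
  rw [V_inv f L hu, S_inv f L hu]

lemma h1_nonneg (i : ι) (x : ι → Bool) : 0 ≤ h1 f L i x := by
  unfold h1; split_ifs <;> norm_num

lemma h2_nonneg (i : ι) (x : ι → Bool) : 0 ≤ h2 f L i x := by
  unfold h2; split_ifs <;> norm_num

lemma h1_add_h2 (i : ι) (x : ι → Bool) : h1 f L i x + h2 f L i x = 1 := by
  unfold h1 h2; split_ifs <;> norm_num

variable {f}

lemma V_nonneg (i : ι) (x : ι → Bool) : 0 ≤ V f L i x :=
  run_nonneg L (fun _ => abs_nonneg _) x

lemma V_le_S (hf : ∀ x, 0 ≤ f x) (i : ι) (x : ι → Bool) : V f L i x ≤ S f L i x := by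
  unfold V S
  have h : ∀ x, |f x - f (flip i x)| ≤ f x + sh i f x := by
    intro x
    unfold sh
    rw [abs_le]
    have h1 := hf x
    have h2 := hf (flip i x)
    constructor <;> linarith
  have h2 := run_mono L h x
  rw [run_add, run_sh] at h2
  exact h2

lemma abs_sub_le_V (i : ι) (x : ι → Bool) :
    |run L f x - run L f (flip i x)| ≤ V f L i x := by
  have h1 : run L f x - run L f (flip i x) = run L (fun x => f x - sh i f x) x := by
    rw [run_sub, run_sh]
    rfl
  rw [h1]
  exact run_abs L _ x

lemma S_le_two (hf1 : ∀ x, f x ≤ 1) (i : ι) (x : ι → Bool) : S f L i x ≤ 2 := by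
  unfold S
  have h1 := run_le_one L hf1 x
  have h2 := run_le_one L hf1 (flip i x)
  linarith

lemma Q_nonneg (hf : ∀ x, 0 ≤ f x) (i : ι) (x : ι → Bool) : 0 ≤ Q f L i x := by
  unfold Q
  have := (V_nonneg (f := f) L i x).trans (V_le_S L hf i x)
  positivity

lemma Q_mul_S (hf : ∀ x, 0 ≤ f x) (i : ι) (x : ι → Bool) :
    Q f L i x * S f L i x = (V f L i x) ^ 2 := by
  unfold Q
  have h1 := V_nonneg (f := f) L i x
  have h2 := V_le_S L hf i x
  rcases eq_or_lt_of_le (h1.trans h2) with h | h
  · have : V f L i x = 0 := by linarith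
    rw [this]
    simp
  · field_simp

lemma Q_le_V (hf : ∀ x, 0 ≤ f x) (i : ι) (x : ι → Bool) : Q f L i x ≤ V f L i x := by
  have h1 := V_nonneg (f := f) L i x
  have h2 := V_le_S L hf i x
  unfold Q
  rcases eq_or_lt_of_le (h1.trans h2) with h | h
  · have : V f L i x = 0 := by linarith
    rw [this]
    simp
  · rw [div_le_iff₀ h]
    nlinarith

/-- (1) `h₁ V ≤ 2 (V - Q)` -/
lemma fact1 (hf : ∀ x, 0 ≤ f x) (i : ι) (x : ι → Bool) :
    h1 f L i x * V f L i x ≤ 2 * (V f L i x - Q f L i x) := by
  have hV := V_nonneg (f := f) L i x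
  have hVS := V_le_S L hf i x
  have hQV := Q_le_V L hf i x
  have hQS := Q_mul_S L hf i x
  unfold h1
  split_ifs with h
  · have hS : 0 < S f L i x := by linarith
    have : Q f L i x ≤ V f L i x / 2 := by
      unfold Q
      rw [div_le_iff₀ hS]
      nlinarith
    linarith
  · linarith

/-- (2) `h₂ S / 2 ≤ V / 2 + (V - Q)` -/
lemma fact2 (hf : ∀ x, 0 ≤ f x) (i : ι) (x : ι → Bool) :
    h2 f L i x * (S f L i x / 2) ≤ V f L i x / 2 + (V f L i x - Q f L i x) := by
  have hV := V_nonneg (f := f) L i x
  have hVS := V_le_S L hf i x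
  have hQV := Q_le_V L hf i x
  unfold h2
  split_ifs with h
  · linarith
  · push Not at h
    rcases eq_or_lt_of_le (hV.trans hVS) with h0 | h0
    · rw [← h0]
      linarith
    · have : Q f L i x ≤ (3 * V f L i x - S f L i x) / 2 := by
        unfold Q
        rw [div_le_iff₀ h0]
        nlinarith
      linarith

/-- (3) `h₁ (F - F∘i)² ≤ 2 (V - Q)` -/
lemma fact3 (hf : ∀ x, 0 ≤ f x) (hf1 : ∀ x, f x ≤ 1) (i : ι) (x : ι → Bool) :
    h1 f L i x * (run L f x - run L f (flip i x)) ^ 2 ≤ 2 * (V f L i x - Q f L i x) := by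
  have hV := V_nonneg (f := f) L i x
  have hVS := V_le_S L hf i x
  have hQV := Q_le_V L hf i x
  have hQ0 := Q_nonneg L hf i x
  have hQS := Q_mul_S L hf i x
  have hS2 := S_le_two L hf1 i x
  have hab := abs_sub_le_V (f := f) L i x
  have hsq : (run L f x - run L f (flip i x)) ^ 2 ≤ (V f L i x) ^ 2 := by
    rw [← sq_abs]
    exact pow_le_pow_left₀ (abs_nonneg _) hab 2
  unfold h1
  split_ifs with h
  · have hS : 0 < S f L i x := by linarith
    have : Q f L i x ≤ V f L i x / 2 := by
      unfold Q
      rw [div_le_iff₀ hS]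
      nlinarith
    nlinarith
  · linarith

end one

section indicator

variable {f : (ι → Bool) → ℝ} (hf01 : ∀ x, f x = 0 ∨ f x = 1)
include hf01

lemma f_nonneg (x : ι → Bool) : 0 ≤ f x := by
  rcases hf01 x with h | h <;> rw [h]
  norm_num

lemma f_le_one (x : ι → Bool) : f x ≤ 1 := by
  rcases hf01 x with h | h <;> rw [h]
  norm_num

lemma f_sq (x : ι → Bool) : (f x) ^ 2 = f x := by
  rcases hf01 x with h | h <;> rw [h] <;> norm_num

lemma phi_f (x : ι → Bool) : phi (f x) = 0 := by
  rcases hf01 x with h | h <;> rw [h] <;> simp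

lemma f_diff_sq (i : ι) (x : ι → Bool) : (f x - f (flip i x)) ^ 2 = |f x - f (flip i x)| := by
  rcases hf01 x with h | h <;> rcases hf01 (flip i x) with h' | h' <;> rw [h, h'] <;> norm_num

omit hf01 in
/-- `a i = E |dd i f|` is half of the influence -/
lemma E_absdiff (i : ι) : E (fun x => |f x - f (flip i x)|) = 2 * E (fun x => |dd i f x|) := by
  rw [← E_const_mul]
  apply E_congr
  intro x
  unfold dd
  rw [abs_div, abs_two]
  ring

omit hf01 in
lemma E_V (L : List ι) (i : ι) : E (V f L i) = 2 * E (fun x => |dd i f x|) := by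
  unfold V
  rw [E_run, E_absdiff]

lemma Le_f_le (L : List ι) (i : ι) : Le i (run L f) ≤ log 2 * E (fun x => |dd i f x|) := by
  unfold Le
  have h0 := run_nonneg L (f_nonneg hf01)
  have h : E (fun x => ent2 (run L f x) (run L f (flip i x))) ≤
      E (fun x => (log 2 / 2) * V f L i x) := by
    apply E_mono
    intro x
    have h1 := ent2_le_abs (run L f x) (run L f (flip i x)) (h0 _) (h0 _)
    have h2 := abs_sub_le_V (f := f) L i x
    have h3 : 0 ≤ log 2 := Real.log_nonneg (by norm_num)
    nlinarith
  rw [E_const_mul, E_V] at h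
  linarith

/-- entropy of the conditional mean -/
lemma phi_run_le {L K : List ι} (hK : ∀ i, i ∈ L ∨ i ∈ K) :
    E (fun x => phi (run L f x)) - phi (E f) ≤
      (K.map (fun i => log 2 * E (fun x => |dd i f x|))).sum := by
  have h := tens_run K (run_nonneg L (f_nonneg hf01))
  have h1 : (fun x => phi (run K (run L f) x)) = fun _ => phi (E f) := by
    funext x
    rw [← run_append, run_all (fun i => by simpa using hK i)]
  rw [h1, E_const] at h
  refine h.trans ?_
  exact List.sum_le_sum (fun i _ => Le_f_le hf01 L i)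

/-- lower bound for the sum of entropies of the squared increments -/
lemma low_main {L K : List ι} (hK : ∀ i, i ∈ L ∨ i ∈ K) (δ : ℝ)
    (hδ : ∀ u ∈ L, E (fun x => |dd u f x|) ≤ δ) :
    (E f - E (fun x => (run L f x) ^ 2)) * (- log δ - 4) -
      ((L.map (fun u => E (fun x => |dd u f x|))).sum +
        (K.map (fun u => E (fun x => |dd u f x|))).sum - (- phi (E f)) / log 2) ≤
      ssum (fun u g => Ent (fun x => (dd u g x) ^ 2)) L f := by
  have hf0 := f_nonneg hf01
  have hf1 := f_le_one hf01
  have hl2 : 0 < log 2 := Real.log_pos (by norm_num)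
  have e1 := ssum_ent_low hf0 hf1 δ hδ
  have e2 := ssum_A (L := L) hf0 hf1
  have e3 := ssum_chi (L := L) hf0
  have e4 := ssum_L1 L f
  have e5 := ssum_log (L := L) hf0
  have e6 := ssum_sq_one L f
  have e7 := phi_run_le hf01 hK
  have hfE : E (fun x => (f x) ^ 2) = E f := E_congr (fun x => f_sq hf01 x)
  rw [hfE] at e6
  have hphi : E (fun x => phi (f x)) = 0 := by
    have : (fun x => phi (f x)) = fun _ => (0 : ℝ) := funext (fun x => phi_f hf01 x)
    rw [this, E_const]
  rw [hphi] at e3
  have hlog0 : E (fun x => - ((f x) ^ 2 * log (f x))) = 0 := by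
    have : (fun x => - ((f x) ^ 2 * log (f x))) = fun _ => (0 : ℝ) := by
      funext x
      rcases hf01 x with h | h <;> rw [h] <;> simp
    rw [this, E_const]
  rw [hlog0] at e5
  have hlogF : 0 ≤ E (fun x => - ((run L f x) ^ 2 * log (run L f x))) := by
    apply E_nonneg
    intro x
    have h1 := run_nonneg L hf0 x
    have h2 := run_le_one L hf1 x
    have h3 := Real.log_nonpos h1 h2
    have h4 : 0 ≤ (run L f x) ^ 2 * (- log (run L f x)) :=
      mul_nonneg (sq_nonneg _) (by linarith)
    linarith
  rw [List.sum_map_mul_left] at e7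
  set W := ssum (fun u g => E (fun x => (dd u g x) ^ 2)) L f
  set A := ssum (fun u g => E (fun x => |dd u g x| * avg u g x)) L f
  set X := ssum (fun u g => E (fun x => (dd u g x) ^ 2 / avg u g x)) L f
  set D1 := ssum (fun u g => E (fun x => |dd u g x|)) L f
  set Lg := ssum (fun u g => E (fun x => (dd u g x) ^ 2 * (- log (avg u g x)))) L f
  set sL := (L.map (fun u => E (fun x => |dd u f x|))).sum
  set sK := (K.map (fun u => E (fun x => |dd u f x|))).sum
  set P := E (fun x => phi (run L f x))
  rw [← e6]
  have h1 : - P / log 2 ≤ X := by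
    rw [div_le_iff₀ hl2]
    linarith
  have h2 : - phi (E f) / log 2 ≤ - P / log 2 + sK := by
    rw [div_add' _ _ _ hl2.ne', div_le_div_iff_of_pos_right hl2]
    linarith
  linarith

/-- upper bound for the sum of entropies of the squared increments -/
lemma up_main (L : List ι) (hμ : 0 < E f) :
    ssum (fun u g => Ent (fun x => (dd u g x) ^ 2)) L f ≤
      log 2 * (∑ i, E (fun x => |dd i f x|)) - (- log (E f)) * E (fun x => (run L f x) ^ 2) +
      2 * (E f - E (fun x => (run L f x) ^ 2)) +
      (log 2 + 4) * ∑ i, E (fun x => V f L i x - Q f L i x) := by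
  have hf0 := f_nonneg hf01
  have hf1 := f_le_one hf01
  have hl2 : 0 < log 2 := Real.log_pos (by norm_num)
  have hF0 := run_nonneg L hf0
  have hF1 := run_le_one L hf1
  -- tensorise
  have t1 : ssum (fun u g => Ent (fun x => (dd u g x) ^ 2)) L f ≤
      ∑ i, ssum (fun u g => E (fun x => ent2 ((dd u g x) ^ 2) ((dd u g (flip i x)) ^ 2))) L f := by
    rw [← ssum_sum]
    apply ssum_mono
    intro u g
    have := tens (g := fun x => (dd u g x) ^ 2) (fun x => sq_nonneg _)
    exact this
  -- each direction
  have t2 : ∀ i, ssum (fun u g => E (fun x => ent2 ((dd u g x) ^ 2) ((dd u g (flip i x)) ^ 2))) L f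
      ≤ log 2 * (E (fun x => h2 f L i x * run L f x) - E (fun x => h2 f L i x * (run L f x) ^ 2)) +
        2 * E (fun x => V f L i x - Q f L i x) := by
    intro i
    have s1 : ssum (fun u g => E (fun x => ent2 ((dd u g x) ^ 2) ((dd u g (flip i x)) ^ 2))) L f =
        ssum (fun u g => E (fun x => h2 f L i x *
          ent2 ((dd u g x) ^ 2) ((dd u g (flip i x)) ^ 2))) L f +
        ssum (fun u g => E (fun x => h1 f L i x *
          ent2 ((dd u g x) ^ 2) ((dd u g (flip i x)) ^ 2))) L f := by
      rw [← ssum_add]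
      congr 1
      funext u g
      rw [← E_add]
      apply E_congr
      intro x
      have := h1_add_h2 f L i x
      have h : h2 f L i x = 1 - h1 f L i x := by linarith
      rw [h]
      ring
    have s2 : ssum (fun u g => E (fun x => h2 f L i x *
          ent2 ((dd u g x) ^ 2) ((dd u g (flip i x)) ^ 2))) L f ≤
        log 2 * ssum (fun u g => E (fun x => h2 f L i x * (dd u g x) ^ 2)) L f := by
      rw [← ssum_const_mul]
      apply ssum_mono
      intro u g
      have h3 : E (fun x => h2 f L i x * ((dd u g x) ^ 2)) =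
          E (fun x => h2 f L i x * (((dd u g x) ^ 2 + (dd u g (flip i x)) ^ 2) / 2)) := by
        rw [← E_pair i (fun x => h2 f L i x * ((dd u g x) ^ 2))]
        apply E_congr
        intro x
        rw [h2_inv_self f L i x]
        ring
      rw [h3, ← E_const_mul]
      apply E_mono
      intro x
      have h4 := ent2_le_log_two ((dd u g x) ^ 2) ((dd u g (flip i x)) ^ 2)
        (sq_nonneg _) (sq_nonneg _)
      have h5 := h2_nonneg f L i x
      calc h2 f L i x * ent2 ((dd u g x) ^ 2) ((dd u g (flip i x)) ^ 2)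
          ≤ h2 f L i x * (log 2 * (((dd u g x) ^ 2 + (dd u g (flip i x)) ^ 2) / 2)) :=
            mul_le_mul_of_nonneg_left h4 h5
        _ = _ := by ring
    have s3 := ssum_sq (L := L) (h := h2 f L i) (fun u hu => h2_inv f L hu) f
    have s4 : E (fun x => h2 f L i x * (f x) ^ 2) = E (fun x => h2 f L i x * run L f x) := by
      rw [E_mul_run (fun u hu => h2_inv f L hu)]
      apply E_congr
      intro x
      rw [f_sq hf01]
    have s5 := ssum_cost i (L := L) (h := h1 f L i) (h1_nonneg f L i)
      (fun u hu => h1_inv f L hu) f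
    have s6 : E (fun x => h1 f L i x * (f x - f (flip i x)) ^ 2) ≤
        2 * E (fun x => V f L i x - Q f L i x) := by
      have h6 : E (fun x => h1 f L i x * (f x - f (flip i x)) ^ 2) =
          E (fun x => h1 f L i x * V f L i x) := by
        unfold V
        rw [E_mul_run (fun u hu => h1_inv f L hu)]
        apply E_congr
        intro x
        rw [f_diff_sq hf01]
      rw [h6, ← E_const_mul]
      exact E_mono (fun x => fact1 L hf0 i x)
    rw [s4] at s3
    rw [s1]
    rw [s3] at s2
    linarith
  -- entropy of `F²`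
  have t3 : Ent (fun x => (run L f x) ^ 2) ≤
      ∑ i, (log 2 * E (fun x => h2 f L i x * (run L f x) ^ 2) +
        2 * E (fun x => V f L i x - Q f L i x)) := by
    refine (tens (fun x => sq_nonneg _)).trans ?_
    apply Finset.sum_le_sum
    intro i _
    unfold Le
    have h3 : E (fun x => h2 f L i x * ((run L f x) ^ 2)) =
        E (fun x => h2 f L i x * (((run L f x) ^ 2 + (run L f (flip i x)) ^ 2) / 2)) := by
      rw [← E_pair i (fun x => h2 f L i x * ((run L f x) ^ 2))]
      apply E_congr
      intro x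
      rw [h2_inv_self f L i x]
      ring
    rw [h3, ← E_const_mul, ← E_const_mul, ← E_add]
    apply E_mono
    intro x
    have h4 := ent2_le_log_two ((run L f x) ^ 2) ((run L f (flip i x)) ^ 2)
        (sq_nonneg _) (sq_nonneg _)
    have h5 := ent2_sq_le (run L f x) (run L f (flip i x))
    have h6 := fact3 L hf0 hf1 i x
    have h7 := h2_nonneg f L i x
    have h8 := h1_nonneg f L i x
    have h9 := h1_add_h2 f L i x
    have h10 : h2 f L i x * ent2 ((run L f x) ^ 2) ((run L f (flip i x)) ^ 2) ≤
        h2 f L i x * (log 2 * (((run L f x) ^ 2 + (run L f (flip i x)) ^ 2) / 2)) :=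
      mul_le_mul_of_nonneg_left h4 h7
    have h11 : h1 f L i x * ent2 ((run L f x) ^ 2) ((run L f (flip i x)) ^ 2) ≤
        h1 f L i x * (run L f x - run L f (flip i x)) ^ 2 :=
      mul_le_mul_of_nonneg_left h5 h8
    have h12 : ent2 ((run L f x) ^ 2) ((run L f (flip i x)) ^ 2) =
        h1 f L i x * ent2 ((run L f x) ^ 2) ((run L f (flip i x)) ^ 2) +
        h2 f L i x * ent2 ((run L f x) ^ 2) ((run L f (flip i x)) ^ 2) := by
      rw [← add_mul, h9, one_mul]
    rw [h12]
    linarith
  -- lower bound on the entropy of `F²`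
  have t4 : (- log (E f)) * E (fun x => (run L f x) ^ 2) -
      2 * (E f - E (fun x => (run L f x) ^ 2)) ≤ Ent (fun x => (run L f x) ^ 2) := by
    unfold Ent
    have h3 : 2 * (E (fun x => (run L f x) ^ 2) - E f) ≤ E (fun x => phi ((run L f x) ^ 2)) := by
      rw [← E_run L f, ← E_sub, ← E_const_mul]
      apply E_mono
      intro x
      have hx := hF0 x
      rcases eq_or_lt_of_le hx with h | h
      · rw [← h]; simp
      · have h4 : 1 - (run L f x)⁻¹ ≤ log (run L f x) := Real.one_sub_inv_le_log_of_pos h
        have h5 : phi ((run L f x) ^ 2) = 2 * (run L f x) ^ 2 * log (run L f x) := by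
          unfold phi
          rw [Real.log_pow]
          push_cast
          ring
        rw [h5]
        have h6 : 2 * (run L f x) ^ 2 * (1 - (run L f x)⁻¹) ≤
            2 * (run L f x) ^ 2 * log (run L f x) :=
          mul_le_mul_of_nonneg_left h4 (by positivity)
        have h7 : 2 * (run L f x) ^ 2 * (1 - (run L f x)⁻¹) =
            2 * ((run L f x) ^ 2 - run L f x) := by
          field_simp
        linarith
    have h4 : E (fun x => (run L f x) ^ 2) ≤ E f := by
      rw [← E_run L f]
      apply E_mono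
      intro x
      have h5 := hF0 x
      have h6 := hF1 x
      nlinarith
    have h5 : 0 ≤ E (fun x => (run L f x) ^ 2) := E_nonneg (fun x => sq_nonneg _)
    have h6 : phi (E (fun x => (run L f x) ^ 2)) ≤ E (fun x => (run L f x) ^ 2) * log (E f) := by
      unfold phi
      rcases eq_or_lt_of_le h5 with h | h
      · rw [← h]; simp
      · exact mul_le_mul_of_nonneg_left (Real.log_le_log h h4) h5
    linarith
  -- bound on the weights
  have t5 : ∀ i, E (fun x => h2 f L i x * run L f x) ≤
      E (fun x => |dd i f x|) + E (fun x => V f L i x - Q f L i x) := by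
    intro i
    have h3 : E (fun x => h2 f L i x * run L f x) =
        E (fun x => h2 f L i x * (S f L i x / 2)) := by
      rw [← E_pair i (fun x => h2 f L i x * run L f x)]
      apply E_congr
      intro x
      rw [h2_inv_self f L i x]
      unfold S
      ring
    rw [h3]
    have h4 : E (fun x => h2 f L i x * (S f L i x / 2)) ≤
        E (fun x => V f L i x / 2 + (V f L i x - Q f L i x)) :=
      E_mono (fun x => fact2 L hf0 i x)
    rw [E_add, E_div_const] at h4
    have h5 := E_V (f := f) L i
    have h6 : E (fun x => V f L i x) = E (V f L i) := rfl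
    rw [h6, h5] at h4
    linarith
  -- assemble
  have t6 : ssum (fun u g => Ent (fun x => (dd u g x) ^ 2)) L f ≤
      ∑ i, (log 2 * (E (fun x => h2 f L i x * run L f x) -
        E (fun x => h2 f L i x * (run L f x) ^ 2)) +
        2 * E (fun x => V f L i x - Q f L i x)) :=
    t1.trans (Finset.sum_le_sum (fun i _ => t2 i))
  have t7 : ∑ i, (log 2 * (E (fun x => h2 f L i x * run L f x) -
        E (fun x => h2 f L i x * (run L f x) ^ 2)) +
        2 * E (fun x => V f L i x - Q f L i x)) ≤
      ∑ i, (log 2 * (E (fun x => |dd i f x|) + E (fun x => V f L i x - Q f L i x)) +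
        4 * E (fun x => V f L i x - Q f L i x)) -
      ∑ i, (log 2 * E (fun x => h2 f L i x * (run L f x) ^ 2) +
        2 * E (fun x => V f L i x - Q f L i x)) := by
    rw [← Finset.sum_sub_distrib]
    apply Finset.sum_le_sum
    intro i _
    have := mul_le_mul_of_nonneg_left (t5 i) hl2.le
    linarith
  have t8 : ∑ i, (log 2 * (E (fun x => |dd i f x|) + E (fun x => V f L i x - Q f L i x)) +
        4 * E (fun x => V f L i x - Q f L i x)) =
      log 2 * (∑ i, E (fun x => |dd i f x|)) +
      (log 2 + 4) * ∑ i, E (fun x => V f L i x - Q f L i x) := by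
    rw [Finset.mul_sum, Finset.mul_sum, ← Finset.sum_add_distrib]
    apply Finset.sum_congr rfl
    intro i _
    ring
  rw [t8] at t7
  linarith

end indicator

end Pool.Agent.Hhelper40.Junta
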