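import Mathlib
import Pool.Agent.Hhelper40.JuntaMain

set_option autoImplicit false
set_option linter.unusedSectionVars false

namespace Pool.Agent.Hhelper40.Junta

open Real

variable {ι : Type*} [DecidableEq ι] [Fintype ι]

/-- averaging over a set of coordinates -/
noncomputable def cav (U : Finset ι) (g : (ι → Bool) → ℝ) : (ι → Bool) → ℝ := run U.toList g

@[simp] lemma cav_empty (g : (ι → Bool) → ℝ) : cav ∅ g = g := by
  simp [cav, run]

lemma cav_insert {u : ι} {U : Finset ι} (hu : u ∉ U) (g : (ι → Bool) → ℝ) :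
    cav (insert u U) g = avg u (cav U g) := by
  unfold cav
  rw [run_perm (Finset.toList_insert hu)]
  simp only [run]
  rw [run_avg]

lemma cav_erase {u : ι} {U : Finset ι} (hu : u ∈ U) (g : (ι → Bool) → ℝ) :
    cav U g = avg u (cav (U.erase u) g) := by
  rw [← cav_insert (Finset.notMem_erase u U), Finset.insert_erase hu]

lemma cav_union {U U' : Finset ι} (h : Disjoint U U') (g : (ι → Bool) → ℝ) :
    cav (U ∪ U') g = cav U' (cav U g) := by
  induction U' using Finset.induction_on with
  | empty => simp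
  | insert a s ha ih =>
    rw [Finset.disjoint_insert_right] at h
    have h1 : U ∪ insert a s = insert a (U ∪ s) := by
      rw [Finset.union_insert]
    have h2 : a ∉ U ∪ s := by
      simp [h.1, ha]
    rw [h1, cav_insert h2, ih h.2, cav_insert ha]

lemma cav_sdiff {U T : Finset ι} (h : U ⊆ T) (g : (ι → Bool) → ℝ) :
    cav T g = cav (T \ U) (cav U g) := by
  rw [← cav_union Finset.disjoint_sdiff, Finset.union_sdiff_of_subset h]

/-- `Ψ(U) = E φ(E[f | x_{U^c}])` -/
noncomputable def Psi (f : (ι → Bool) → ℝ) (U : Finset ι) : ℝ := E (fun x => phi (cav U f x))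

variable {f : (ι → Bool) → ℝ}

lemma cav_nonneg (U : Finset ι) (hf : ∀ x, 0 ≤ f x) : ∀ x, 0 ≤ cav U f x := run_nonneg _ hf

lemma cav_le_one (U : Finset ι) (hf : ∀ x, f x ≤ 1) : ∀ x, cav U f x ≤ 1 := run_le_one _ hf

lemma E_cav (U : Finset ι) : E (cav U f) = E f := E_run _ _

/-- `Q` controls the local entropies -/
lemma Q_lower (hf : ∀ x, 0 ≤ f x) (U : Finset ι) (i : ι) :
    Le i (cav (U.erase i) f) ≤ log 2 / 2 * E (Q f U.toList i) := by
  unfold Le
  rw [← E_const_mul]
  apply E_mono
  intro x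
  set G := cav (U.erase i) f with hG
  have hG0 : ∀ x, 0 ≤ G x := cav_nonneg _ hf
  -- `S = G + G ∘ flip i`
  have hS : S f U.toList i x = G x + G (flip i x) := by
    unfold S
    have h1 : run U.toList f = cav U f := rfl
    rw [h1]
    by_cases hi : i ∈ U
    · rw [cav_erase hi f, ← hG]
      unfold avg
      rw [flip_flip]
      ring
    · rw [hG, Finset.erase_eq_of_notMem hi]
  -- `V` is the average over `U.erase i`
  have hV : V f U.toList i = cav (U.erase i) (fun x => |f x - f (flip i x)|) := by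
    unfold V
    have h1 : run U.toList (fun x => |f x - f (flip i x)|) =
      cav U (fun x => |f x - f (flip i x)|) := rfl
    rw [h1]
    by_cases hi : i ∈ U
    · rw [cav_erase hi]
      exact avg_of_inv (run_inv (absdiff_inv f i))
    · rw [Finset.erase_eq_of_notMem hi]
  have hab : |G x - G (flip i x)| ≤ V f U.toList i x := by
    rw [hV]
    exact abs_sub_le_V (f := f) (U.erase i).toList i x
  have h1 := ent2_le_chi (G x) (G (flip i x)) (hG0 _) (hG0 _)
  refine h1.trans ?_
  have hl2 : 0 < log 2 := Real.log_pos (by norm_num)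
  unfold Q
  rw [hS]
  have hs0 : 0 ≤ G x + G (flip i x) := add_nonneg (hG0 _) (hG0 _)
  have h2 : (G x - G (flip i x)) ^ 2 ≤ (V f U.toList i x) ^ 2 := by
    rw [← sq_abs]
    exact pow_le_pow_left₀ (abs_nonneg _) hab 2
  have h3 : (G x - G (flip i x)) ^ 2 / (2 * (G x + G (flip i x))) =
      (G x - G (flip i x)) ^ 2 / (G x + G (flip i x)) / 2 := by
    rw [mul_comm, div_div]
  rw [h3]
  have h4 : (G x - G (flip i x)) ^ 2 / (G x + G (flip i x)) ≤
      (V f U.toList i x) ^ 2 / (G x + G (flip i x)) :=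
    div_le_div_of_nonneg_right h2 hs0
  nlinarith

/-- pairing of subsets with and without `i` -/
lemma sum_powerset_erase {T : Finset ι} {i : ι} (hi : i ∈ T) (φ : Finset ι → ℝ) :
    ∑ U ∈ T.powerset, φ (U.erase i) = 2 * ∑ U ∈ (T.erase i).powerset, φ U := by
  conv_lhs => rw [← Finset.insert_erase hi]
  rw [Finset.sum_powerset_insert (Finset.notMem_erase i T)]
  have h1 : ∀ U ∈ (T.erase i).powerset, φ (U.erase i) = φ U := by
    intro U hU
    have : i ∉ U := fun h => Finset.notMem_erase i T (Finset.mem_powerset.1 hU h)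
    rw [Finset.erase_eq_of_notMem this]
  have h2 : ∀ U ∈ (T.erase i).powerset, φ ((insert i U).erase i) = φ U := by
    intro U hU
    have : i ∉ U := fun h => Finset.notMem_erase i T (Finset.mem_powerset.1 hU h)
    rw [Finset.erase_insert this]
  rw [Finset.sum_congr rfl h1, Finset.sum_congr rfl h2]
  ring

/-- complementation inside `T` -/
lemma sum_powerset_compl (T : Finset ι) (φ : Finset ι → ℝ) :
    ∑ U ∈ T.powerset, φ (T \ U) = ∑ U ∈ T.powerset, φ U := by
  apply Finset.sum_nbij' (fun U => T \ U) (fun U => T \ U)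
  · intro U hU
    simp only [Finset.mem_powerset]
    exact Finset.sdiff_subset
  · intro U hU
    simp only [Finset.mem_powerset]
    exact Finset.sdiff_subset
  · intro U hU
    exact Finset.sdiff_sdiff_eq_self (Finset.mem_powerset.1 hU)
  · intro U hU
    exact Finset.sdiff_sdiff_eq_self (Finset.mem_powerset.1 hU)
  · intro U hU
    rfl

lemma sum_powerset_sum (T : Finset ι) (a : ι → ℝ) :
    2 * ∑ U ∈ T.powerset, ∑ i ∈ U, a i = 2 ^ T.card * ∑ i ∈ T, a i := by
  have h1 : ∑ U ∈ T.powerset, ∑ i ∈ U, a i + ∑ U ∈ T.powerset, ∑ i ∈ T \ U, a i =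
      2 ^ T.card * ∑ i ∈ T, a i := by
    rw [← Finset.sum_add_distrib]
    have h2 : ∀ U ∈ T.powerset, ∑ i ∈ U, a i + ∑ i ∈ T \ U, a i = ∑ i ∈ T, a i := by
      intro U hU
      rw [add_comm]
      exact Finset.sum_sdiff (Finset.mem_powerset.1 hU)
    rw [Finset.sum_congr rfl h2, Finset.sum_const, Finset.card_powerset, nsmul_eq_mul]
    push_cast
    rfl
  have h3 := sum_powerset_compl T (fun U => ∑ i ∈ U, a i)
  rw [h3] at h1
  linarith

section main

variable (hf01 : ∀ x, f x = 0 ∨ f x = 1)
include hf01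

/-- partial tensorisation for `cav` -/
lemma Psi_sub_le (U K : Finset ι) (h : Disjoint U K) :
    Psi f U - Psi f (U ∪ K) ≤ ∑ i ∈ K, Le i (cav U f) := by
  have h1 := tens_run K.toList (cav_nonneg U (f_nonneg hf01))
  rw [Finset.sum_map_toList] at h1
  have h2 : run K.toList (cav U f) = cav (U ∪ K) f := (cav_union h f).symm
  rw [h2] at h1
  exact h1

omit hf01 in
lemma Psi_univ : Psi f Finset.univ = phi (E f) := by
  unfold Psi cav
  have : (fun x => phi (run (Finset.univ : Finset ι).toList f x)) = fun _ => phi (E f) := by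
    funext x
    rw [run_all (fun i => by simp)]
  rw [this, E_const]

lemma Psi_empty : Psi f ∅ = 0 := by
  unfold Psi
  have : (fun x => phi (cav ∅ f x)) = fun _ => (0 : ℝ) := by
    funext x
    rw [cav_empty, phi_f hf01]
  rw [this, E_const]

lemma Le_cav_le (U : Finset ι) (i : ι) :
    Le i (cav U f) ≤ log 2 * E (fun x => |dd i f x|) := Le_f_le hf01 _ i

lemma Psi_ge (U : Finset ι) : - (log 2 * ∑ i ∈ U, E (fun x => |dd i f x|)) ≤ Psi f U := by
  have h := Psi_sub_le hf01 ∅ U (Finset.disjoint_empty_left U)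
  rw [Finset.empty_union, Psi_empty hf01, cav_empty] at h
  have h2 : ∑ i ∈ U, Le i f ≤ log 2 * ∑ i ∈ U, E (fun x => |dd i f x|) := by
    rw [Finset.mul_sum]
    apply Finset.sum_le_sum
    intro i _
    have := Le_cav_le hf01 ∅ i
    rwa [cav_empty] at this
  linarith

lemma Psi_le (T : Finset ι) :
    Psi f T ≤ phi (E f) + log 2 * ∑ i ∈ Tᶜ, E (fun x => |dd i f x|) := by
  have h := Psi_sub_le hf01 T Tᶜ disjoint_compl_right
  rw [Finset.union_compl, Psi_univ] at h
  have h2 : ∑ i ∈ Tᶜ, Le i (cav T f) ≤ log 2 * ∑ i ∈ Tᶜ, E (fun x => |dd i f x|) := by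
    rw [Finset.mul_sum]
    exact Finset.sum_le_sum (fun i _ => Le_cav_le hf01 T i)
  linarith

/-- the averaged lower bound for the local entropies -/
lemma sum_Le_ge (T : Finset ι) :
    2 ^ T.card * (- 2 * phi (E f) - log 2 * ∑ i, E (fun x => |dd i f x|)) ≤
      ∑ U ∈ T.powerset, ∑ i, Le i (cav (U.erase i) f) := by
  -- split the sum over `i`
  have s1 : ∑ U ∈ T.powerset, ∑ i, Le i (cav (U.erase i) f) =
      ∑ U ∈ T.powerset, (∑ i ∈ Tᶜ, Le i (cav U f) + 2 * ∑ i ∈ T \ U, Le i (cav U f)) := by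
    have a1 : ∑ U ∈ T.powerset, ∑ i, Le i (cav (U.erase i) f) =
        ∑ U ∈ T.powerset, ∑ i ∈ Tᶜ, Le i (cav U f) +
        ∑ U ∈ T.powerset, ∑ i ∈ T, Le i (cav (U.erase i) f) := by
      rw [← Finset.sum_add_distrib]
      apply Finset.sum_congr rfl
      intro U hU
      rw [← Finset.sum_compl_add_sum T]
      congr 1
      apply Finset.sum_congr rfl
      intro i hi
      have : i ∉ U := fun h => (Finset.mem_compl.1 hi) (Finset.mem_powerset.1 hU h)
      rw [Finset.erase_eq_of_notMem this]
    have a2 : ∑ U ∈ T.powerset, ∑ i ∈ T, Le i (cav (U.erase i) f) =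
        2 * ∑ U ∈ T.powerset, ∑ i ∈ T \ U, Le i (cav U f) := by
      rw [Finset.sum_comm]
      have b1 : ∀ i ∈ T, ∑ U ∈ T.powerset, Le i (cav (U.erase i) f) =
          2 * ∑ U ∈ (T.erase i).powerset, Le i (cav U f) :=
        fun i hi => sum_powerset_erase hi (fun U => Le i (cav U f))
      rw [Finset.sum_congr rfl b1, ← Finset.mul_sum]
      congr 1
      apply Finset.sum_comm'
      intro i U
      simp only [Finset.mem_powerset, Finset.mem_sdiff]
      constructor
      · rintro ⟨hi, hU⟩
        refine ⟨⟨hi, fun h => ?_⟩, hU.trans (Finset.erase_subset i T)⟩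
        exact Finset.notMem_erase i T (hU h)
      · rintro ⟨⟨hi, hiU⟩, hU⟩
        refine ⟨hi, fun j hj => ?_⟩
        rw [Finset.mem_erase]
        exact ⟨fun h => hiU (h ▸ hj), hU hj⟩
    rw [a1, a2, Finset.sum_add_distrib, ← Finset.mul_sum]
  -- for each `U`
  have s2 : ∀ U ∈ T.powerset, 2 * Psi f U - phi (E f) - Psi f T ≤
      ∑ i ∈ Tᶜ, Le i (cav U f) + 2 * ∑ i ∈ T \ U, Le i (cav U f) := by
    intro U hU
    have hUT := Finset.mem_powerset.1 hU
    have e1 := Psi_sub_le hf01 U Uᶜ disjoint_compl_right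
    rw [Finset.union_compl, Psi_univ] at e1
    have e2 := Psi_sub_le hf01 U (T \ U) Finset.disjoint_sdiff
    rw [Finset.union_sdiff_of_subset hUT] at e2
    have e3 : ∑ i ∈ Uᶜ, Le i (cav U f) =
        ∑ i ∈ Tᶜ, Le i (cav U f) + ∑ i ∈ T \ U, Le i (cav U f) := by
      have hd : Disjoint Tᶜ (T \ U) := by
        rw [Finset.disjoint_left]
        intro i hi hi'
        exact (Finset.mem_compl.1 hi) (Finset.mem_sdiff.1 hi').1
      rw [← Finset.sum_union hd]
      congr 1
      ext i
      simp only [Finset.mem_compl, Finset.mem_union, Finset.mem_sdiff]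
      constructor
      · intro h
        by_cases hT : i ∈ T
        · exact Or.inr ⟨hT, h⟩
        · exact Or.inl hT
      · rintro (h | h)
        · exact fun h' => h (hUT h')
        · exact h.2
    linarith
  have s3 := Finset.sum_le_sum s2
  rw [← s1] at s3
  refine le_trans ?_ s3
  -- lower bound of the left side
  have s4 : ∀ U ∈ T.powerset, -2 * (log 2 * ∑ i ∈ U, E (fun x => |dd i f x|)) - phi (E f) -
      (phi (E f) + log 2 * ∑ i ∈ Tᶜ, E (fun x => |dd i f x|)) ≤
      2 * Psi f U - phi (E f) - Psi f T := by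
    intro U _
    have e1 := Psi_ge hf01 U
    have e2 := Psi_le hf01 T
    linarith
  refine le_trans ?_ (Finset.sum_le_sum s4)
  rw [Finset.sum_sub_distrib, Finset.sum_sub_distrib, ← Finset.mul_sum, ← Finset.mul_sum,
    Finset.sum_const, Finset.sum_const, Finset.card_powerset]
  have e3 := sum_powerset_sum T (fun i => E (fun x => |dd i f x|))
  simp only [nsmul_eq_mul]
  push_cast
  have e4 : ∑ i, E (fun x => |dd i f x|) =
      ∑ i ∈ Tᶜ, E (fun x => |dd i f x|) + ∑ i ∈ T, E (fun x => |dd i f x|) :=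
    (Finset.sum_compl_add_sum T _).symm
  rw [e4]
  have e5 : -2 * (log 2 * ∑ U ∈ T.powerset, ∑ i ∈ U, E (fun x => |dd i f x|)) =
      - (log 2 * (2 ^ T.card * ∑ i ∈ T, E (fun x => |dd i f x|))) := by
    rw [← e3]; ring
  rw [e5]
  apply le_of_eq
  ring

/-- the averaged bound for `∑ E (V - Q)` -/
lemma sum_VQ_le (T : Finset ι) :
    log 2 * ∑ U ∈ T.powerset, ∑ i, E (fun x => V f U.toList i x - Q f U.toList i x) ≤
      2 ^ T.card * (4 * (log 2 * (∑ i, E (fun x => |dd i f x|)) + phi (E f))) := by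
  have hl2 : 0 < log 2 := Real.log_pos (by norm_num)
  have h1 : ∀ U ∈ T.powerset, log 2 * ∑ i, E (fun x => V f U.toList i x - Q f U.toList i x) ≤
      2 * log 2 * (∑ i, E (fun x => |dd i f x|)) - 2 * ∑ i, Le i (cav (U.erase i) f) := by
    intro U _
    rw [Finset.mul_sum, Finset.mul_sum, Finset.mul_sum, ← Finset.sum_sub_distrib]
    apply Finset.sum_le_sum
    intro i _
    have e1 := Q_lower (f_nonneg hf01) U i
    have e2 := E_V (f := f) U.toList i
    have e3 : E (fun x => V f U.toList i x - Q f U.toList i x) =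
        E (V f U.toList i) - E (Q f U.toList i) := E_sub _ _
    rw [e3, e2]
    linarith
  have h2 := Finset.sum_le_sum h1
  rw [← Finset.mul_sum, Finset.sum_sub_distrib, Finset.sum_const, Finset.card_powerset,
    ← Finset.mul_sum] at h2
  have h3 := sum_Le_ge hf01 T
  simp only [nsmul_eq_mul] at h2
  push_cast at h2
  linarith

/-- contraction -/
lemma var_avg_le (L : List ι) (u : ι) (g : (ι → Bool) → ℝ) :
    E (fun x => (avg u g x) ^ 2) - E (fun x => (run L (avg u g) x) ^ 2) ≤
      E (fun x => (g x) ^ 2) - E (fun x => (run L g x) ^ 2) := by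
  have e1 := ssum_sq_one [u] g
  have e2 := ssum_sq_one [u] (run L g)
  simp only [ssum, run, add_zero] at e1 e2
  have e3 : run L (dd u g) = dd u (run L g) := by
    have : dd u g = fun x => g x - avg u g x := by
      funext x
      exact (sub_avg u g x).symm
    rw [this, run_sub, run_avg]
    funext x
    exact sub_avg u (run L g) x
  have e4 : E (fun x => (dd u (run L g) x) ^ 2) ≤ E (fun x => (dd u g x) ^ 2) := by
    rw [← e3]
    have h := ssum_sq_one L (dd u g)
    have h2 : 0 ≤ ssum (fun u g => E (fun x => (dd u g x) ^ 2)) L (dd u g) := by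
      have : ssum (fun (_ : ι) (_ : (ι → Bool) → ℝ) => (0 : ℝ)) L (dd u g) ≤
          ssum (fun u g => E (fun x => (dd u g x) ^ 2)) L (dd u g) :=
        ssum_mono (fun u g => E_nonneg (fun x => sq_nonneg _)) L _
      have h0 : ∀ (L : List ι) (g : (ι → Bool) → ℝ),
          ssum (fun (_ : ι) (_ : (ι → Bool) → ℝ) => (0 : ℝ)) L g = 0 := by
        intro L
        induction L with
        | nil => intro g; rfl
        | cons v L ih => intro g; simp [ssum, ih]
      rw [h0] at this
      exact this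
    linarith
  rw [run_avg]
  linarith

lemma var_run_le (L L' : List ι) (g : (ι → Bool) → ℝ) :
    E (fun x => (run L' g x) ^ 2) - E (fun x => (run L (run L' g) x) ^ 2) ≤
      E (fun x => (g x) ^ 2) - E (fun x => (run L g x) ^ 2) := by
  induction L' generalizing g with
  | nil => exact le_rfl
  | cons u L' ih =>
    simp only [run]
    exact (ih (avg u g)).trans (var_avg_le hf01 L u g)

/-- `W_T ≤ W_U + W_{T \ U}` -/
lemma W_sub (T U : Finset ι) (hU : U ⊆ T) :
    E f - E (fun x => (cav T f x) ^ 2) ≤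
      (E f - E (fun x => (cav U f x) ^ 2)) + (E f - E (fun x => (cav (T \ U) f x) ^ 2)) := by
  have h := var_run_le hf01 (T \ U).toList U.toList f
  have h1 : run (T \ U).toList (run U.toList f) = cav T f := (cav_sdiff hU f).symm
  have h2 : E (fun x => (f x) ^ 2) = E f := E_congr (fun x => f_sq hf01 x)
  rw [h1, h2] at h
  have h3 : run U.toList f = cav U f := rfl
  have h4 : run (T \ U).toList f = cav (T \ U) f := rfl
  rw [h3, h4] at h
  linarith

lemma sum_W_ge (T : Finset ι) :
    2 ^ T.card * (E f - E (fun x => (cav T f x) ^ 2)) ≤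
      2 * ∑ U ∈ T.powerset, (E f - E (fun x => (cav U f x) ^ 2)) := by
  have h1 : ∑ U ∈ T.powerset, (E f - E (fun x => (cav T f x) ^ 2)) ≤
      ∑ U ∈ T.powerset, ((E f - E (fun x => (cav U f x) ^ 2)) +
        (E f - E (fun x => (cav (T \ U) f x) ^ 2))) :=
    Finset.sum_le_sum (fun U hU => W_sub hf01 T U (Finset.mem_powerset.1 hU))
  rw [Finset.sum_const, Finset.card_powerset, nsmul_eq_mul, Finset.sum_add_distrib,
    sum_powerset_compl T (fun U => E f - E (fun x => (cav U f x) ^ 2))] at h1
  push_cast at h1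
  linarith

/-- **Core inequality.** -/
theorem core (hμ : 0 < E f) (T : Finset ι) (τ m : ℝ) (hτ : 0 < τ)
    (hT : ∀ u ∈ T, E (fun x => |dd u f x|) ≤ E f * τ) (hτ6 : 6 ≤ - log τ)
    (hm : (∑ i, E (fun x => |dd i f x|)) - (- phi (E f)) / log 2 ≤ m) (hm0 : 0 ≤ m) :
    (E f - E (fun x => (cav T f x) ^ 2)) * (- log τ - 6) ≤ 41 * m := by
  have hl2 : 0 < log 2 := Real.log_pos (by norm_num)
  have hl2' : log 2 < 0.6931471808 := Real.log_two_lt_d9
  -- for each `U ⊆ T`
  have h1 : ∀ U ∈ T.powerset, (E f - E (fun x => (cav U f x) ^ 2)) * (- log τ - 6) ≤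
      (1 + log 2) * m + (log 2 + 4) *
        ∑ i, E (fun x => V f U.toList i x - Q f U.toList i x) := by
    intro U hU
    have hUT := Finset.mem_powerset.1 hU
    have e1 := low_main hf01 (L := U.toList) (K := Uᶜ.toList) (by
      intro i
      by_cases hi : i ∈ U
      · exact Or.inl (by simpa using hi)
      · exact Or.inr (by simpa using hi)) (E f * τ) (by
      intro u hu
      exact hT u (hUT (by simpa using hu)))
    have e2 := up_main hf01 U.toList hμ
    rw [Finset.sum_map_toList, Finset.sum_map_toList] at e1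
    have e3 : ∑ u ∈ U, E (fun x => |dd u f x|) + ∑ u ∈ Uᶜ, E (fun x => |dd u f x|) =
        ∑ i, E (fun x => |dd i f x|) := by
      rw [add_comm]
      exact Finset.sum_compl_add_sum U _
    rw [e3, Real.log_mul hμ.ne' hτ.ne'] at e1
    have e4 : run U.toList f = cav U f := rfl
    rw [e4] at e1 e2
    have e5 := e1.trans e2
    set W2 := E (fun x => (cav U f x) ^ 2)
    set A := ∑ i, E (fun x => |dd i f x|)
    set B := ∑ i, E (fun x => V f U.toList i x - Q f U.toList i x)
    have e6 : phi (E f) = E f * log (E f) := rfl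
    have e7 : log 2 * A ≤ log 2 * m + (- phi (E f)) := by
      have := mul_le_mul_of_nonneg_left hm hl2.le
      have e8 : log 2 * (A - (- phi (E f)) / log 2) = log 2 * A - (- phi (E f)) := by
        field_simp
      linarith
    have e9 : (E f - W2) * (-(log (E f) + log τ) - 4) =
        (E f - W2) * (- log τ - 6) + (E f - W2) * (- log (E f)) + 2 * (E f - W2) := by ring
    rw [e9] at e5
    have e10 : (E f - W2) * (- log (E f)) = - phi (E f) - (- log (E f)) * W2 := by
      rw [e6]; ring
    rw [e10] at e5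
    linarith
  have h2 := Finset.sum_le_sum h1
  rw [← Finset.sum_mul, Finset.sum_add_distrib, Finset.sum_const, Finset.card_powerset,
    ← Finset.mul_sum, nsmul_eq_mul] at h2
  push_cast at h2
  have h3 := sum_VQ_le hf01 T
  have h4 := sum_W_ge hf01 T
  set WT := E f - E (fun x => (cav T f x) ^ 2)
  set SW := ∑ U ∈ T.powerset, (E f - E (fun x => (cav U f x) ^ 2))
  set SB := ∑ U ∈ T.powerset, ∑ i, E (fun x => V f U.toList i x - Q f U.toList i x)
  set N : ℝ := 2 ^ T.card
  have hN : 0 < N := by positivity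
  set A := ∑ i, E (fun x => |dd i f x|)
  have h5 : SB ≤ N * (4 * m) := by
    have e8 : log 2 * A + phi (E f) ≤ log 2 * m := by
      have := mul_le_mul_of_nonneg_left hm hl2.le
      have e8 : log 2 * (A - (- phi (E f)) / log 2) = log 2 * A - (- phi (E f)) := by
        field_simp
      linarith
    have e9 : log 2 * SB ≤ log 2 * (N * (4 * m)) := by
      calc log 2 * SB ≤ N * (4 * (log 2 * A + phi (E f))) := h3
        _ ≤ N * (4 * (log 2 * m)) := by gcongr
        _ = log 2 * (N * (4 * m)) := by ring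
    exact le_of_mul_le_mul_left e9 hl2
  have h6 : 0 ≤ - log τ - 6 := by linarith
  have h7 : N * WT * (- log τ - 6) ≤ 2 * SW * (- log τ - 6) := mul_le_mul_of_nonneg_right h4 h6
  have h8 : (log 2 + 4) * SB ≤ (log 2 + 4) * (N * (4 * m)) :=
    mul_le_mul_of_nonneg_left h5 (by linarith)
  have h9 : N * (WT * (- log τ - 6)) ≤ N * (2 * ((1 + log 2) * m + (log 2 + 4) * (4 * m))) := by
    nlinarith
  have h10 := le_of_mul_le_mul_left h9 hN
  refine h10.trans ?_
  nlinarith

end main

end Pool.Agent.Hhelper40.Junta
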